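import Pool.Agent.MP_9ab903_nt.AN.P1
import Pool.Agent.MP_ae0bd0_nt.B3.Defs
import Pool.Agent.MP_9ab903_nt.Defs

set_option autoImplicit false

open NumberField IsDedekindDomain CM27 BS3 MeasureTheory
open scoped Classical

namespace SB3

/-! ## [SB3-T8] the real period (file T8.lean) -/

open scoped ComplexConjugate
open Filter Topology

theorem t8_mem_iff (t : ℝ) : (t : ℂ) ∈ Set.range emb ↔ ∃ n : ℤ, t = n := by
  have h3 : (0:ℝ) < √3 := by positivity
  constructor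
  · rintro ⟨a, ha⟩
    have h1 := emb_re a
    have h2 := emb_im a
    rw [ha] at h1 h2
    rw [Complex.ofReal_im] at h2
    rw [Complex.ofReal_re] at h1
    have h4 : (a.im : ℝ) = 0 := by
      rcases mul_eq_zero.1 h2.symm with h | h
      · exact h
      · exfalso
        linarith
    refine ⟨a.re, ?_⟩
    rw [h1, h4]
    ring
  · rintro ⟨n, rfl⟩
    refine ⟨⟨n, 0⟩, ?_⟩
    apply Complex.ext
    · rw [emb_re]
      simp
    · rw [emb_im]
      simp

theorem t8_not_mem (t : ℝ) (h0 : 0 < t) (h1 : t < 1) : (t : ℂ) ∉ Set.range emb := by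
  rw [t8_mem_iff]
  rintro ⟨n, rfl⟩
  have h6 : 0 < n := by exact_mod_cast h0
  have h7 : n < 1 := by exact_mod_cast h1
  omega

theorem t8_x_real (t : ℝ) : xw (t : ℂ) = ((xw (t : ℂ)).re : ℂ) := by
  have h := xw_conj (t : ℂ)
  rw [Complex.conj_ofReal] at h
  exact (Complex.conj_eq_iff_re.1 h.symm).symm

theorem t8_y_im (t : ℝ) : yw (t : ℂ) = ((yw (t : ℂ)).im : ℂ) * Complex.I := by
  have h := yw_conj (t : ℂ)
  rw [Complex.conj_ofReal] at h
  have h1 := congrArg Complex.re h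
  rw [Complex.neg_re, Complex.conj_re] at h1
  have h2 : (yw (t : ℂ)).re = 0 := by linarith
  apply Complex.ext
  · simp [h2]
  · simp

theorem t8_weq (t : ℝ) (h0 : 0 < t) (h1 : t < 1) :
    (yw (t : ℂ)).im ^ 2 = 4 * (-(xw (t : ℂ)).re) ^ 3 - 1 := by
  have h := weq _ (t8_not_mem t h0 h1)
  rw [t8_x_real, t8_y_im, mul_pow, Complex.I_sq] at h
  have h2 : -(yw (t : ℂ)).im ^ 2 = 4 * (xw (t : ℂ)).re ^ 3 + 1 := by
    have h3 : ((-(yw (t : ℂ)).im ^ 2 : ℝ) : ℂ) = ((4 * (xw (t : ℂ)).re ^ 3 + 1 : ℝ) : ℂ) := by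
      push_cast
      linear_combination h
    exact_mod_cast h3
  linear_combination -h2

theorem t8_deriv (t : ℝ) (h0 : 0 < t) (h1 : t < 1) :
    HasDerivAt (fun t : ℝ => -(xw (t : ℂ)).re) (Om * (yw (t : ℂ)).im) t := by
  have h := xw_deriv _ (t8_not_mem t h0 h1)
  have h4 := h.real_of_complex.neg
  refine h4.congr_deriv ?_
  rw [t8_y_im t, OmC]
  have : Complex.I * (Om : ℂ) * (((yw (t : ℂ)).im : ℂ) * Complex.I) =
      ((-(Om * (yw (t : ℂ)).im) : ℝ) : ℂ) := by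
    push_cast
    linear_combination ((Om : ℂ) * ((yw (t : ℂ)).im : ℂ)) * Complex.I_mul_I
  rw [this, Complex.ofReal_re, neg_neg, ← t8_y_im t]

theorem t8_y_ne (t : ℝ) (h0 : 0 < t) (h1 : t < 1 / 2) : (yw (t : ℂ)).im ≠ 0 := by
  intro h
  have h4 : yw (t : ℂ) = 0 := by rw [t8_y_im, h, Complex.ofReal_zero, zero_mul]
  rw [yw_eq_zero_iff _ (t8_not_mem t h0 (by linarith))] at h4
  rw [show 2 * (t:ℂ) = ((2 * t : ℝ) : ℂ) by push_cast; ring] at h4
  exact t8_not_mem (2 * t) (by linarith) (by linarith) h4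

theorem t8_y_half : (yw ((1 / 2 : ℝ) : ℂ)).im = 0 := by
  have h4 : yw ((1 / 2 : ℝ) : ℂ) = 0 := by
    rw [yw_eq_zero_iff _ (t8_not_mem _ (by norm_num) (by norm_num))]
    rw [show 2 * ((1 / 2 : ℝ) : ℂ) = ((1 : ℝ) : ℂ) by push_cast; ring, t8_mem_iff]
    exact ⟨1, by simp⟩
  rw [h4, Complex.zero_im]

theorem t8_inj : Set.InjOn (fun t : ℝ => -(xw (t : ℂ)).re) (Set.Ioo 0 (1 / 2)) := by
  intro s hs t ht hst
  have h0 : (xw (s : ℂ)).re = (xw (t : ℂ)).re := neg_injective hst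
  have h1 : xw (s : ℂ) = xw (t : ℂ) := by
    rw [t8_x_real s, t8_x_real t]
    exact congrArg _ h0
  rw [xw_eq_iff _ _ (t8_not_mem s hs.1 (by linarith [hs.2])) (t8_not_mem t ht.1
    (by linarith [ht.2]))] at h1
  rcases h1 with h1 | h1
  · rw [show (s:ℂ) - t = ((s - t : ℝ) : ℂ) by push_cast; ring, t8_mem_iff] at h1
    obtain ⟨n, hn⟩ := h1
    have a1 : (-1:ℝ) < n := by
      rw [← hn]
      linarith [hs.1, ht.2]
    have a2 : (n:ℝ) < 1 := by
      rw [← hn]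
      linarith [hs.2, ht.1]
    have a3 : -1 < n := by exact_mod_cast a1
    have a4 : n < 1 := by exact_mod_cast a2
    have a5 : n = 0 := by omega
    rw [a5] at hn
    simp at hn
    linarith
  · rw [show (s:ℂ) + t = ((s + t : ℝ) : ℂ) by push_cast; ring] at h1
    exact absurd h1 (t8_not_mem _ (by linarith [hs.1, ht.1]) (by linarith [hs.2, ht.2]))

theorem t8_tendsto : Tendsto (fun t : ℝ => -(xw (t : ℂ)).re) (𝓝[>] 0) atTop := by
  have hO := Om_pos
  have h1 : Tendsto (fun t : ℝ => (t:ℂ)) (𝓝[>] 0) (𝓝[≠] 0) := by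
    rw [tendsto_nhdsWithin_iff]
    constructor
    · have : Tendsto (fun t : ℝ => (t:ℂ)) (𝓝 0) (𝓝 (((0:ℝ):ℂ))) :=
        (Continuous.tendsto (by fun_prop) 0)
      rw [Complex.ofReal_zero] at this
      exact this.mono_left nhdsWithin_le_nhds
    · filter_upwards [self_mem_nhdsWithin] with t ht
      have ht' : (0:ℝ) < t := ht
      simp [ht'.ne']
  have h2 := xw_sq_tendsto.comp h1
  have h3 : Tendsto (fun t : ℝ => t ^ 2 * (-(xw (t : ℂ)).re)) (𝓝[>] 0) (𝓝 (1 / Om ^ 2)) := by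
    have h4 := (Complex.continuous_re.tendsto _).comp h2
    have h5 := h4.neg
    have h6 : -(1 / OmC ^ 2).re = 1 / Om ^ 2 := by
      rw [OmC, mul_pow, Complex.I_sq]
      rw [show (1:ℂ) / (-1 * (Om:ℂ) ^ 2) = ((-(1 / Om ^ 2) : ℝ) : ℂ) by push_cast; ring]
      rw [Complex.ofReal_re, neg_neg]
    rw [h6] at h5
    refine h5.congr fun t => ?_
    simp only [Function.comp_apply]
    rw [t8_x_real t,
      show (t:ℂ) ^ 2 * ((xw (t : ℂ)).re : ℂ) =
        ((t ^ 2 * (xw (t : ℂ)).re : ℝ) : ℂ) by push_cast; ring]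
    rw [Complex.ofReal_re, Complex.ofReal_re]
    ring
  have h7 : Tendsto (fun t : ℝ => (t ^ 2)⁻¹) (𝓝[>] 0) atTop := by
    refine Tendsto.inv_tendsto_nhdsGT_zero ?_
    rw [tendsto_nhdsWithin_iff]
    constructor
    · have : Tendsto (fun t : ℝ => t ^ 2) (𝓝 0) (𝓝 (0 ^ 2)) := (continuous_pow 2).tendsto 0
      rw [zero_pow two_ne_zero] at this
      exact this.mono_left nhdsWithin_le_nhds
    · filter_upwards [self_mem_nhdsWithin] with t ht
      have ht' : (0:ℝ) < t := ht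
      exact pow_pos ht' 2
  have h8 := h7.atTop_mul_pos (show (0:ℝ) < 1 / Om ^ 2 by positivity) h3
  refine h8.congr' ?_
  filter_upwards [self_mem_nhdsWithin] with t ht
  have ht' : (0:ℝ) < t := ht
  field_simp

theorem t8_image : (fun t : ℝ => -(xw (t : ℂ)).re) '' (Set.Ioo 0 (1 / 2)) =
    {t : ℝ | 0 < 4 * t ^ 3 - 1} := by
  ext x
  constructor
  · rintro ⟨t, ht, rfl⟩
    simp only [Set.mem_ofPred_eq]
    rw [← t8_weq t ht.1 (by linarith [ht.2])]
    have := t8_y_ne t ht.1 ht.2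
    positivity
  · intro hx
    simp only [Set.mem_ofPred_eq] at hx
    -- value at the end point
    have hend : 4 * (-(xw ((1 / 2 : ℝ) : ℂ)).re) ^ 3 - 1 = 0 := by
      rw [← t8_weq (1 / 2) (by norm_num) (by norm_num), t8_y_half]
      norm_num
    have hlt : -(xw ((1 / 2 : ℝ) : ℂ)).re < x := by
      by_contra hcon
      push Not at hcon
      have : x ^ 3 ≤ (-(xw ((1 / 2 : ℝ) : ℂ)).re) ^ 3 := by
        exact (Odd.strictMono_pow (by decide : Odd 3)).monotone hcon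
      linarith
    obtain ⟨s, hs1, hs2⟩ : ∃ s : ℝ, s ∈ Set.Ioo (0:ℝ) (1 / 2) ∧ x < -(xw (s : ℂ)).re := by
      have e1 := t8_tendsto.eventually_gt_atTop x
      have e2 : ∀ᶠ s : ℝ in 𝓝[>] 0, s ∈ Set.Ioo (0:ℝ) (1 / 2) :=
        Ioo_mem_nhdsGT (by norm_num)
      obtain ⟨s, h1, h2⟩ := (e1.and e2).exists
      exact ⟨s, h2, h1⟩
    have hcont : ContinuousOn (fun t : ℝ => -(xw (t : ℂ)).re) (Set.Icc s (1 / 2)) := by
      intro t ht
      exact (t8_deriv t (by linarith [hs1.1, ht.1]) (by linarith [ht.2])).continuousAt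
        |>.continuousWithinAt
    have := intermediate_value_Icc' hs1.2.le hcont
    obtain ⟨t, ht, htx⟩ := this ⟨hlt.le, hs2.le⟩
    refine ⟨t, ⟨by linarith [hs1.1, ht.1], lt_of_le_of_ne ht.2 ?_⟩, htx⟩
    rintro rfl
    simp only at htx
    linarith

/-- `∫ 2 dx / √(4 x³ - 4 r²)` over `x > r^{2/3}` is `Om / (2 r)^{1/3}`. -/
theorem realPeriod_W (r : ℕ) (hr : r ≠ 0) :
    0 < SBSD.realPeriod (W (-(r : ℤ) ^ 2) ℝ) ∧
    SBSD.realPeriod (W (-(r : ℤ) ^ 2) ℝ) ^ 3 * (2 * r) = Om ^ 3 := by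
  have hO := Om_pos
  have hr0 : (0:ℝ) < r := by exact_mod_cast Nat.pos_of_ne_zero hr
  obtain ⟨c, hc0, hc3⟩ : ∃ c : ℝ, 0 < c ∧ c ^ 3 = 4 * (r:ℝ) ^ 2 := by
    refine ⟨(4 * (r:ℝ) ^ 2) ^ ((1:ℝ) / 3), by positivity, ?_⟩
    rw [← Real.rpow_natCast, ← Real.rpow_mul (by positivity)]
    norm_num
  have hcub : ∀ x : ℝ, SBSD.cubic (W (-(r : ℤ) ^ 2) ℝ) x = 4 * x ^ 3 - 4 * (r:ℝ) ^ 2 := by
    intro x
    simp only [SBSD.cubic, W, WeierstrassCurve.b₂, WeierstrassCurve.b₄, WeierstrassCurve.b₆]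
    push_cast
    ring
  have himg : (fun t : ℝ => c * (-(xw (t : ℂ)).re)) '' (Set.Ioo 0 (1 / 2)) =
      {x : ℝ | 0 < SBSD.cubic (W (-(r : ℤ) ^ 2) ℝ) x} := by
    ext x
    simp only [Set.mem_ofPred_eq, hcub]
    constructor
    · rintro ⟨t, ht, rfl⟩
      have h1 : -(xw (t : ℂ)).re ∈ {t : ℝ | 0 < 4 * t ^ 3 - 1} := by
        rw [← t8_image]
        exact ⟨t, ht, rfl⟩
      simp only [Set.mem_ofPred_eq] at h1
      have h2 : 4 * (c * -(xw (t : ℂ)).re) ^ 3 - 4 * (r:ℝ) ^ 2 =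
          4 * (r:ℝ) ^ 2 * (4 * (-(xw (t : ℂ)).re) ^ 3 - 1) := by
        rw [mul_pow, hc3]
        ring
      simp only
      rw [h2]
      positivity
    · intro hx
      have h1 : x / c ∈ {t : ℝ | 0 < 4 * t ^ 3 - 1} := by
        simp only [Set.mem_ofPred_eq]
        have h2 : 4 * x ^ 3 - 4 * (r:ℝ) ^ 2 = 4 * (r:ℝ) ^ 2 * (4 * (x / c) ^ 3 - 1) := by
          rw [div_pow, hc3]
          field_simp
        rw [h2] at hx
        exact pos_of_mul_pos_right hx (by positivity)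
      rw [← t8_image] at h1
      obtain ⟨t, ht, htx⟩ := h1
      refine ⟨t, ht, ?_⟩
      simp only at htx ⊢
      rw [htx]
      field_simp
  have hval : SBSD.realPeriod (W (-(r : ℤ) ^ 2) ℝ) = c * Om / (2 * r) := by
    rw [SBSD.realPeriod, ← himg, integral_image_eq_integral_abs_deriv_smul measurableSet_Ioo
      (f' := fun t : ℝ => c * (Om * (yw (t : ℂ)).im))
      (fun t ht => ((t8_deriv t ht.1 (by linarith [ht.2])).const_mul c).hasDerivWithinAt)
      (fun s hs t ht hst => t8_inj hs ht (mul_left_cancel₀ hc0.ne' hst))]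
    have h1 : ∀ t ∈ Set.Ioo (0:ℝ) (1 / 2), |c * (Om * (yw (t : ℂ)).im)| •
        (2 / √(SBSD.cubic (W (-(r : ℤ) ^ 2) ℝ) (c * (-(xw (t : ℂ)).re)))) = c * Om / r := by
      intro t ht
      have h2 : SBSD.cubic (W (-(r : ℤ) ^ 2) ℝ) (c * (-(xw (t : ℂ)).re)) =
          (2 * r * (yw (t : ℂ)).im) ^ 2 := by
        rw [hcub, mul_pow, hc3, mul_pow, t8_weq t ht.1 (by linarith [ht.2])]
        ring
      rw [h2, Real.sqrt_sq_eq_abs, abs_mul, abs_mul, abs_mul,
        abs_of_pos hO, abs_of_pos hc0, smul_eq_mul, abs_of_pos (show (0:ℝ) < 2 * r by positivity)]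
      have := abs_pos.2 (t8_y_ne t ht.1 ht.2)
      field_simp
    rw [setIntegral_congr_fun measurableSet_Ioo h1, setIntegral_const]
    simp only [measureReal_def, Real.volume_Ioo, smul_eq_mul]
    rw [ENNReal.toReal_ofReal (by norm_num)]
    field_simp
    ring
  rw [hval]
  refine ⟨by positivity, ?_⟩
  rw [div_pow, mul_pow, hc3]
  field_simp
  ring

end SB3
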