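import Mathlib

set_option autoImplicit false

open NumberField

namespace SB3

/-! ## [SB3-T9] Galois number fields of odd degree (file T9.lean) -/

/-- A Galois number field of odd degree is totally real. -/
theorem isReal_of_odd (F : Type) [Field F] [NumberField F] [IsGalois ℚ F]
    (hF : Odd (Module.finrank ℚ F)) (v : InfinitePlace F) : v.IsReal := by
  have := IsUnramifiedAtInfinitePlaces_of_odd_finrank hF
  have h := InfinitePlace.isUnramified ℚ v
  rcases InfinitePlace.isUnramified_iff.1 h with h | h
  · exact h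
  · exact absurd h (InfinitePlace.not_isComplex_iff_isReal.2 (IsTotallyReal.isReal _))

/-- The number of infinite places is the degree. -/
theorem card_places_of_odd (F : Type) [Field F] [NumberField F] [IsGalois ℚ F]
    (hF : Odd (Module.finrank ℚ F)) : Nat.card (InfinitePlace F) = Module.finrank ℚ F := by
  classical
  have : IsTotallyReal F := ⟨isReal_of_odd F hF⟩
  rw [Nat.card_eq_fintype_card, InfinitePlace.card_eq_nrRealPlaces_add_nrComplexPlaces,
    IsTotallyReal.nrComplexPlaces_eq_zero, IsTotallyReal.finrank, add_zero]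

theorem t9_sign {G : Type} [Group G] [Fintype G] [DecidableEq G] (h : Odd (Fintype.card G)) (τ : G) :
    Equiv.Perm.sign (Equiv.mulLeft τ) = 1 := by
  have h1 : (Equiv.mulLeft τ) ^ (Fintype.card G) = 1 := by
    have h2 : ∀ n : ℕ, (Equiv.mulLeft τ) ^ n = Equiv.mulLeft (τ ^ n) := by
      intro n
      induction n with
      | zero => ext x; simp
      | succ n ih => ext x; simp [pow_succ, ih]
    rw [h2, pow_card_eq_one]
    ext x; simp
  have h3 : Equiv.Perm.sign (Equiv.mulLeft τ) ^ (Fintype.card G) = 1 := by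
    rw [← map_pow, h1, map_one]
  rcases Int.units_eq_one_or (Equiv.Perm.sign (Equiv.mulLeft τ)) with h4 | h4
  · exact h4
  · rw [h4, h.neg_one_pow] at h3
    exact absurd h3 (by decide)

/-- The discriminant of a Galois number field of odd degree is a square. -/
theorem discr_sq_of_odd (F : Type) [Field F] [NumberField F] [IsGalois ℚ F]
    (hF : Odd (Module.finrank ℚ F)) : ∃ d : ℕ, |(discr F : ℝ)| = (d : ℝ) ^ 2 := by
  classical
  have hcard : Fintype.card Gal(F/ℚ) = Module.finrank ℚ F := by
    rw [Fintype.card_eq_nat_card, IsGalois.card_aut_eq_finrank]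
  have hodd : Odd (Fintype.card Gal(F/ℚ)) := by rw [hcard]; exact hF
  have hc2 : Fintype.card (Module.Free.ChooseBasisIndex ℤ (𝓞 F)) = Fintype.card Gal(F/ℚ) := by
    rw [hcard, ← RingOfIntegers.rank F, Module.finrank_eq_card_chooseBasisIndex]
  let e : Module.Free.ChooseBasisIndex ℤ (𝓞 F) ≃ Gal(F/ℚ) := Fintype.equivOfCardEq hc2
  let ω : Gal(F/ℚ) → F := (integralBasis F) ∘ e.symm
  have hω : ∀ g, IsIntegral ℤ (ω g) := by
    intro g
    simp only [ω, Function.comp, integralBasis_apply]
    exact RingOfIntegers.isIntegral_coe _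
  have hd : ((discr F : ℤ) : ℚ) = Algebra.discr ℚ ω := by
    rw [coe_discr]
    exact (Algebra.discr_reindex (A := ℚ) (b := integralBasis F) e).symm
  let M : Matrix Gal(F/ℚ) Gal(F/ℚ) F := Matrix.of fun i σ => σ (ω i)
  have hMM : algebraMap ℚ F (Algebra.discr ℚ ω) = M.det ^ 2 := by
    rw [Algebra.discr_def, RingHom.map_det, sq]
    nth_rewrite 3 [← Matrix.det_transpose]
    rw [← Matrix.det_mul]
    congr 1
    ext i j
    simp only [RingHom.mapMatrix_apply, Matrix.map_apply, Algebra.traceMatrix_apply,
      Algebra.traceForm_apply, trace_eq_sum_automorphisms, Matrix.mul_apply, Matrix.transpose_apply,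
      M, Matrix.of_apply, map_mul]
  have hfix : ∀ τ : Gal(F/ℚ), τ M.det = M.det := by
    intro τ
    have h1 : τ M.det = (M.submatrix id (Equiv.mulLeft τ)).det := by
      change (τ : F →+* F) M.det = _
      rw [RingHom.map_det]
      congr 1
    rw [h1, Matrix.det_permute', t9_sign hodd]
    simp
  obtain ⟨q, hq⟩ : ∃ q : ℚ, algebraMap ℚ F q = M.det := by
    have := (IsGalois.mem_bot_iff_fixed (F := ℚ) (E := F) M.det).2 hfix
    exact IntermediateField.mem_bot.1 this
  have hint : IsIntegral ℤ M.det := by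
    apply IsIntegral.det
    intro i σ
    exact (hω i).map (σ : F →+* F).toIntAlgHom
  have hqi : IsIntegral ℤ q := by
    rw [← hq] at hint
    exact (isIntegral_algebraMap_iff (FaithfulSMul.algebraMap_injective ℚ F)).1 hint
  obtain ⟨m, hm⟩ := IsIntegrallyClosed.isIntegral_iff.1 hqi
  have hm' : (m : ℚ) = q := by simpa using hm
  have hdd : ((discr F : ℤ) : ℚ) = (m : ℚ) ^ 2 := by
    apply FaithfulSMul.algebraMap_injective ℚ F
    rw [hd, hMM, map_pow, hm', hq]
  have hz : discr F = m ^ 2 := by exact_mod_cast hdd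
  refine ⟨m.natAbs, ?_⟩
  rw [hz]
  push_cast
  rw [abs_of_nonneg (by positivity), Nat.cast_natAbs, Int.cast_abs, sq_abs]

end SB3
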