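import Pool.Agent.MP_ae0bd0_nt.B3.Defs
import Pool.Agent.MP_9ab903_nt.Tam

set_option autoImplicit false

open NumberField IsDedekindDomain CM27 BS3
open scoped Classical

namespace SB3

/-! ## [SB3-T2] singular points of the reduction of a minimal equation (file T2.lean) -/

/-- A point of the minimal equation `W' = T • W k` with singular reduction comes from an integral
point `(a, b)` of `y² = x³ + k` with `2 b ≡ 0` and `3 a² ≡ 0`. -/
theorem sing_point (A : Type) [CommRing A] [IsDomain A] [IsDiscreteValuationRing A]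
    (K : Type) [Field K] [Algebra A K] [IsFractionRing A K] [CharZero K] (k : ℤ)
    (T : WeierstrassCurve.VariableChange K) (W' : WeierstrassCurve K) [W'.IsMinimal A]
    (hW : W' = T • W k K)
    (hu : (IsDiscreteValuationRing.maximalIdeal A).valuation K (T.u : K) = 1)
    (x y : K) (h : W'.toAffine.Nonsingular x y)
    (hs : ¬ SBSD.NonsingularReduction A W' (.some x y h)) :
    ∃ a b : A, algebraMap A K a = (T.u : K) ^ 2 * x + T.r ∧
      algebraMap A K b = (T.u : K) ^ 3 * y + (T.u : K) ^ 2 * T.s * x + T.t ∧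
      b ^ 2 = a ^ 3 + k ∧ 2 * b ∈ IsLocalRing.maximalIdeal A ∧
      3 * a ^ 2 ∈ IsLocalRing.maximalIdeal A := by
  set v := (IsDiscreteValuationRing.maximalIdeal A).valuation K with hv
  have hinj : Function.Injective (algebraMap A K) := IsFractionRing.injective A K
  have hA : ∀ z : A, v (algebraMap A K z) ≤ 1 := fun z =>
    HeightOneSpectrum.valuation_le_one _ z
  have hnat : ∀ n : ℕ, v (n : K) ≤ 1 := by
    intro n
    have := hA n
    rwa [map_natCast] at this
  have hk : v (k : K) ≤ 1 := by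
    have := hA k
    rwa [map_intCast] at this
  have h2le : v (2 : K) ≤ 1 := by simpa using hnat 2
  have h3le : v (3 : K) ≤ 1 := by simpa using hnat 3
  -- the coefficients
  have hint : W'.IsIntegral A := inferInstance
  have hbc : (W'.integralModel A).map (algebraMap A K) = W' :=
    WeierstrassCurve.baseChange_integralModel_eq A W'
  have hu0 : (T.u : K) ≠ 0 := T.u.ne_zero
  have hui : ((T.u⁻¹ : Kˣ) : K) = (T.u : K)⁻¹ := Units.val_inv_eq_inv_val _
  have e1 : (T.u : K) * W'.a₁ = 2 * T.s := by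
    rw [hW, WeierstrassCurve.variableChange_a₁, hui]
    simp only [W]
    field_simp
    ring
  have e2 : (T.u : K) ^ 2 * W'.a₂ = 3 * T.r - T.s ^ 2 := by
    rw [hW, WeierstrassCurve.variableChange_a₂, hui]
    simp only [W]
    field_simp
    ring
  have e3 : (T.u : K) ^ 3 * W'.a₃ = 2 * T.t := by
    rw [hW, WeierstrassCurve.variableChange_a₃, hui]
    simp only [W]
    field_simp
    ring
  have e4 : (T.u : K) ^ 4 * W'.a₄ = 3 * T.r ^ 2 - 2 * T.s * T.t := by
    rw [hW, WeierstrassCurve.variableChange_a₄, hui]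
    simp only [W]
    field_simp
    ring
  have e6 : (T.u : K) ^ 6 * W'.a₆ = k + T.r ^ 3 - T.t ^ 2 := by
    rw [hW, WeierstrassCurve.variableChange_a₆, hui]
    simp only [W]
    field_simp
    ring
  have i1 : v W'.a₁ ≤ 1 := by
    have h1 : algebraMap A K (W'.integralModel A).a₁ = W'.a₁ := by
      conv_rhs => rw [← hbc]
      rfl
    rw [← h1]; exact hA _
  have i2 : v W'.a₂ ≤ 1 := by
    have h1 : algebraMap A K (W'.integralModel A).a₂ = W'.a₂ := by
      conv_rhs => rw [← hbc]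
      rfl
    rw [← h1]; exact hA _
  have i3 : v W'.a₃ ≤ 1 := by
    have h1 : algebraMap A K (W'.integralModel A).a₃ = W'.a₃ := by
      conv_rhs => rw [← hbc]
      rfl
    rw [← h1]; exact hA _
  have i4 : v W'.a₄ ≤ 1 := by
    have h1 : algebraMap A K (W'.integralModel A).a₄ = W'.a₄ := by
      conv_rhs => rw [← hbc]
      rfl
    rw [← h1]; exact hA _
  have i6 : v W'.a₆ ≤ 1 := by
    have h1 : algebraMap A K (W'.integralModel A).a₆ = W'.a₆ := by
      conv_rhs => rw [← hbc]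
      rfl
    rw [← h1]; exact hA _
  have hmul : ∀ {p q : K}, v p ≤ 1 → v q ≤ 1 → v (p * q) ≤ 1 := by
    intro p q hp hq
    rw [map_mul]
    exact mul_le_one' hp hq
  have hpow : ∀ {p : K} (n : ℕ), v p ≤ 1 → v (p ^ n) ≤ 1 := by
    intro p n hp
    rw [map_pow]
    exact pow_le_one' hp n
  have hadd : ∀ {p q : K}, v p ≤ 1 → v q ≤ 1 → v (p + q) ≤ 1 := fun hp hq =>
    (v.map_add _ _).trans (max_le hp hq)
  have hsub : ∀ {p q : K}, v p ≤ 1 → v q ≤ 1 → v (p - q) ≤ 1 := fun hp hq =>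
    (v.map_sub _ _).trans (max_le hp hq)
  have hule : v (T.u : K) ≤ 1 := hu.le
  -- `b₆` and `b₈`
  have f6 : v (4 * T.r ^ 3 + 4 * k) ≤ 1 := by
    have : 4 * T.r ^ 3 + 4 * (k : K) = (T.u : K) ^ 6 * (W'.a₃ ^ 2 + 4 * W'.a₆) := by
      have e3' : (T.u : K) ^ 6 * W'.a₃ ^ 2 = (2 * T.t) ^ 2 := by rw [← e3]; ring
      rw [mul_add, e3', show (T.u : K) ^ 6 * (4 * W'.a₆) = 4 * ((T.u : K) ^ 6 * W'.a₆) by ring, e6]
      ring
    rw [this]
    have h4 : v (4 : K) ≤ 1 := by simpa using hnat 4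
    exact hmul (hpow 6 hule) (hadd (hpow 2 i3) (hmul h4 i6))
  have f8 : v (3 * T.r ^ 4 + 12 * k * T.r) ≤ 1 := by
    have : 3 * T.r ^ 4 + 12 * (k : K) * T.r = (T.u : K) ^ 8 * (W'.a₁ ^ 2 * W'.a₆ +
        4 * W'.a₂ * W'.a₆ - W'.a₁ * W'.a₃ * W'.a₄ + W'.a₂ * W'.a₃ ^ 2 - W'.a₄ ^ 2) := by
      have g : (T.u : K) ^ 8 * (W'.a₁ ^ 2 * W'.a₆ + 4 * W'.a₂ * W'.a₆ - W'.a₁ * W'.a₃ * W'.a₄ +
          W'.a₂ * W'.a₃ ^ 2 - W'.a₄ ^ 2) = ((T.u : K) * W'.a₁) ^ 2 * ((T.u : K) ^ 6 * W'.a₆) +
          4 * ((T.u : K) ^ 2 * W'.a₂) * ((T.u : K) ^ 6 * W'.a₆) -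
          ((T.u : K) * W'.a₁) * ((T.u : K) ^ 3 * W'.a₃) * ((T.u : K) ^ 4 * W'.a₄) +
          ((T.u : K) ^ 2 * W'.a₂) * ((T.u : K) ^ 3 * W'.a₃) ^ 2 -
          ((T.u : K) ^ 4 * W'.a₄) ^ 2 := by ring
      rw [g, e1, e2, e3, e4, e6]
      ring
    rw [this]
    have h4 : v (4 : K) ≤ 1 := by simpa using hnat 4
    exact hmul (hpow 8 hule) (hsub (hadd (hsub (hadd (hmul (hpow 2 i1) i6)
      (hmul (hmul h4 i2) i6)) (hmul (hmul i1 i3) i4)) (hmul i2 (hpow 2 i3))) (hpow 2 i4))
  -- `r` is integral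
  have hr : v T.r ≤ 1 := by
    by_contra hcon
    push Not at hcon
    have hr0 : v T.r ≠ 0 := fun h0 => by rw [h0] at hcon; exact absurd hcon (not_lt.2 zero_le_one)
    rcases h2le.lt_or_eq with h2 | h2
    · -- then `3` is a unit
      have h3 : v (3 : K) = 1 := by
        refine le_antisymm h3le ?_
        by_contra h3
        push Not at h3
        have h1 : v (1 : K) < 1 := by
          have : (1 : K) = 3 - 2 := by norm_num
          rw [this]
          exact (v.map_sub _ _).trans_lt (max_lt h3 h2)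
        rw [map_one] at h1
        exact absurd h1 (lt_irrefl _)
      have h12 : v (12 * k * T.r) < v (3 * T.r ^ 4) := by
        rw [map_mul v 3, h3, one_mul, map_pow, map_mul]
        have h12' : v (12 * (k : K)) ≤ 1 := hmul (by simpa using hnat 12) hk
        calc v (12 * (k : K)) * v T.r ≤ 1 * v T.r := mul_le_mul_left h12' _
          _ = v T.r ^ 1 := by rw [one_mul, pow_one]
          _ < v T.r ^ 4 := pow_lt_pow_right₀ hcon (by norm_num)
      have h5 := v.map_add_eq_of_lt_left h12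
      rw [h5, map_mul, h3, one_mul, map_pow] at f8
      exact absurd f8 (not_le.2 (one_lt_pow₀ hcon (by norm_num)))
    · have h4 : v (4 : K) = 1 := by
        have : (4 : K) = 2 ^ 2 := by norm_num
        rw [this, map_pow, h2, one_pow]
      have h12 : v (4 * (k : K)) < v (4 * T.r ^ 3) := by
        rw [map_mul v 4 (T.r ^ 3), h4, one_mul, map_pow]
        exact (hmul h4.le hk).trans_lt (one_lt_pow₀ hcon (by norm_num))
      have h5 := v.map_add_eq_of_lt_left h12
      rw [h5, map_mul, h4, one_mul, map_pow] at f6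
      exact absurd f6 (not_le.2 (one_lt_pow₀ hcon (by norm_num)))
  have hsq : ∀ {p : K}, v (p ^ 2) ≤ 1 → v p ≤ 1 := by
    intro p hp
    by_contra hcon
    push Not at hcon
    rw [map_pow] at hp
    exact absurd hp (not_le.2 (one_lt_pow₀ hcon (by norm_num)))
  have hs1 : v T.s ≤ 1 := by
    apply hsq
    have : T.s ^ 2 = 3 * T.r - (T.u : K) ^ 2 * W'.a₂ := by rw [e2]; ring
    rw [this]
    exact hsub (hmul h3le hr) (hmul (hpow 2 hule) i2)
  have ht1 : v T.t ≤ 1 := by
    apply hsq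
    have : T.t ^ 2 = k + T.r ^ 3 - (T.u : K) ^ 6 * W'.a₆ := by rw [e6]; ring
    rw [this]
    exact hsub (hadd hk (hpow 3 hr)) (hmul (hpow 6 hule) i6)
  -- the singular point
  simp only [SBSD.NonsingularReduction] at hs
  push Not at hs
  obtain ⟨a0, b0, ha0, hb0, hns⟩ := hs
  have hxv : v x ≤ 1 := by rw [← ha0]; exact hA _
  have hyv : v y ≤ 1 := by rw [← hb0]; exact hA _
  have heq := (WeierstrassCurve.Affine.equation_iff _ _).1 h.1
  have hred : (W'.reduction A).toAffine.Equation (IsLocalRing.residue A a0)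
      (IsLocalRing.residue A b0) := by
    have h2 : (W'.integralModel A).toAffine.Equation a0 b0 := by
      have h3 : ((W'.integralModel A).map (algebraMap A K)).toAffine.Equation
          (algebraMap A K a0) (algebraMap A K b0) := by
        rw [hbc, ha0, hb0]; exact h.1
      exact (WeierstrassCurve.Affine.map_equation _ hinj a0 b0).1 h3
    exact WeierstrassCurve.Affine.Equation.map (IsLocalRing.residue A) h2
  rw [WeierstrassCurve.Affine.nonsingular_iff] at hns
  have hns' := not_and.1 hns hred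
  push Not at hns'
  obtain ⟨hn1, hn2⟩ := hns'
  have hm : ∀ z : A, IsLocalRing.residue A z = 0 → v (algebraMap A K z) < 1 := by
    intro z hz
    rw [IsLocalRing.residue_eq_zero_iff] at hz
    exact (HeightOneSpectrum.valuation_lt_one_iff_mem _ z).2 hz
  have g1 : v (2 * y + W'.a₁ * x + W'.a₃) < 1 := by
    have h1 : algebraMap A K (2 * b0 + (W'.integralModel A).a₁ * a0 + (W'.integralModel A).a₃) =
        2 * y + W'.a₁ * x + W'.a₃ := by
      conv_rhs => rw [← hbc]
      simp only [map_add, map_mul, map_ofNat, ha0, hb0]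
      rfl
    rw [← h1]
    apply hm
    simp only [map_add, map_mul, map_ofNat]
    have h2 : (W'.reduction A).toAffine.a₁ = IsLocalRing.residue A (W'.integralModel A).a₁ := rfl
    have h3 : (W'.reduction A).toAffine.a₃ = IsLocalRing.residue A (W'.integralModel A).a₃ := rfl
    rw [h2, h3] at hn2
    linear_combination hn2
  have g2 : v (3 * x ^ 2 + 2 * W'.a₂ * x + W'.a₄ - W'.a₁ * y) < 1 := by
    have h1 : algebraMap A K (3 * a0 ^ 2 + 2 * (W'.integralModel A).a₂ * a0 +
        (W'.integralModel A).a₄ - (W'.integralModel A).a₁ * b0) =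
        3 * x ^ 2 + 2 * W'.a₂ * x + W'.a₄ - W'.a₁ * y := by
      conv_rhs => rw [← hbc]
      simp only [map_add, map_sub, map_mul, map_pow, map_ofNat, ha0, hb0]
      rfl
    rw [← h1]
    apply hm
    simp only [map_add, map_sub, map_mul, map_pow, map_ofNat]
    have h2 : (W'.reduction A).toAffine.a₁ = IsLocalRing.residue A (W'.integralModel A).a₁ := rfl
    have h3 : (W'.reduction A).toAffine.a₂ = IsLocalRing.residue A (W'.integralModel A).a₂ := rfl
    have h4 : (W'.reduction A).toAffine.a₄ = IsLocalRing.residue A (W'.integralModel A).a₄ := rfl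
    rw [h2, h3, h4] at hn1
    linear_combination -hn1
  obtain ⟨a, ha⟩ := IsDiscreteValuationRing.exists_lift_of_le_one (A := A) (K := K)
    (x := (T.u : K) ^ 2 * x + T.r) (hadd (hmul (hpow 2 hule) hxv) hr)
  obtain ⟨b, hb⟩ := IsDiscreteValuationRing.exists_lift_of_le_one (A := A) (K := K)
    (x := (T.u : K) ^ 3 * y + (T.u : K) ^ 2 * T.s * x + T.t)
    (hadd (hadd (hmul (hpow 3 hule) hyv) (hmul (hmul (hpow 2 hule) hs1) hxv)) ht1)
  have hmem : ∀ z : A, v (algebraMap A K z) < 1 → z ∈ IsLocalRing.maximalIdeal A := fun z hz =>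
    (HeightOneSpectrum.valuation_lt_one_iff_mem _ z).1 hz
  have k1 : v (2 * ((T.u : K) ^ 3 * y + (T.u : K) ^ 2 * T.s * x + T.t)) < 1 := by
    have : 2 * ((T.u : K) ^ 3 * y + (T.u : K) ^ 2 * T.s * x + T.t) =
        (T.u : K) ^ 3 * (2 * y + W'.a₁ * x + W'.a₃) := by
      linear_combination (-(T.u : K) ^ 2 * x) * e1 - e3
    rw [this, map_mul, map_pow, hu, one_pow, one_mul]
    exact g1
  refine ⟨a, b, ha, hb, ?_, ?_, ?_⟩
  · apply hinj
    rw [map_pow, map_add, map_pow, ha, hb, map_intCast]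
    linear_combination (T.u : K) ^ 6 * heq - (T.u : K) ^ 5 * x * y * e1 + (T.u : K) ^ 4 * x ^ 2 * e2
      - (T.u : K) ^ 3 * y * e3 + (T.u : K) ^ 2 * x * e4 + e6
  · apply hmem
    rw [map_mul, map_ofNat, hb]
    exact k1
  · apply hmem
    rw [map_mul, map_ofNat, map_pow, ha]
    have : 3 * ((T.u : K) ^ 2 * x + T.r) ^ 2 =
        (T.u : K) ^ 4 * (3 * x ^ 2 + 2 * W'.a₂ * x + W'.a₄ - W'.a₁ * y) +
        T.s * (2 * ((T.u : K) ^ 3 * y + (T.u : K) ^ 2 * T.s * x + T.t)) := by
      linear_combination (T.u : K) ^ 3 * y * e1 - 2 * (T.u : K) ^ 2 * x * e2 - e4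
    rw [this]
    refine (v.map_add _ _).trans_lt (max_lt ?_ ?_)
    · rw [map_mul, map_pow, hu, one_pow, one_mul]
      exact g2
    · rw [map_mul]
      calc v T.s * v (2 * ((T.u : K) ^ 3 * y + (T.u : K) ^ 2 * T.s * x + T.t))
          ≤ 1 * v (2 * ((T.u : K) ^ 3 * y + (T.u : K) ^ 2 * T.s * x + T.t)) :=
            mul_le_mul_left hs1 _
        _ < 1 := by rw [one_mul]; exact k1

end SB3
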