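import Mathlib

set_option autoImplicit false

open scoped Classical

namespace SB3

/-! ## [SB3-T3] a change of variables is a homomorphism on the points (file T3.lean) -/

/-- the relations between the coefficients of `T • V` and `V` -/
theorem t3_rel {K : Type} [Field K] (T : WeierstrassCurve.VariableChange K)
    (V : WeierstrassCurve K) :
    (T.u : K) * (T • V).a₁ = V.a₁ + 2 * T.s ∧
    (T.u : K) ^ 2 * (T • V).a₂ = V.a₂ - T.s * V.a₁ + 3 * T.r - T.s ^ 2 ∧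
    (T.u : K) ^ 3 * (T • V).a₃ = V.a₃ + T.r * V.a₁ + 2 * T.t ∧
    (T.u : K) ^ 4 * (T • V).a₄ = V.a₄ - T.s * V.a₃ + 2 * T.r * V.a₂ - (T.t + T.r * T.s) * V.a₁ +
      3 * T.r ^ 2 - 2 * T.s * T.t ∧
    (T.u : K) ^ 6 * (T • V).a₆ = V.a₆ + T.r * V.a₄ + T.r ^ 2 * V.a₂ + T.r ^ 3 - T.t * V.a₃ -
      T.t ^ 2 - T.r * T.t * V.a₁ := by
  have hu : (T.u : K) * ((T.u⁻¹ : Kˣ) : K) = 1 := T.u.mul_inv
  have hp : ∀ n : ℕ, (T.u : K) ^ n * ((T.u⁻¹ : Kˣ) : K) ^ n = 1 := by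
    intro n
    rw [← mul_pow, hu, one_pow]
  refine ⟨?_, ?_, ?_, ?_, ?_⟩
  · rw [WeierstrassCurve.variableChange_a₁, ← mul_assoc, hu, one_mul]
  · rw [WeierstrassCurve.variableChange_a₂, ← mul_assoc, hp, one_mul]
  · rw [WeierstrassCurve.variableChange_a₃, ← mul_assoc, hp, one_mul]
  · rw [WeierstrassCurve.variableChange_a₄, ← mul_assoc, hp, one_mul]
  · rw [WeierstrassCurve.variableChange_a₆, ← mul_assoc, hp, one_mul]

/-- the derivative with respect to `y` -/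
theorem t3_Fy {K : Type} [Field K] (T : WeierstrassCurve.VariableChange K)
    (V : WeierstrassCurve K) (x y : K) :
    2 * ((T.u : K) ^ 3 * y + (T.u : K) ^ 2 * T.s * x + T.t) +
      V.a₁ * ((T.u : K) ^ 2 * x + T.r) + V.a₃ =
      (T.u : K) ^ 3 * (2 * y + (T • V).a₁ * x + (T • V).a₃) := by
  obtain ⟨h1, h2, h3, h4, h6⟩ := t3_rel T V
  linear_combination - (T.u : K) ^ 2 * x * h1 - h3

/-- the derivative with respect to `x` -/
theorem t3_Fx {K : Type} [Field K] (T : WeierstrassCurve.VariableChange K)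
    (V : WeierstrassCurve K) (x y : K) :
    V.a₁ * ((T.u : K) ^ 3 * y + (T.u : K) ^ 2 * T.s * x + T.t) -
      (3 * ((T.u : K) ^ 2 * x + T.r) ^ 2 + 2 * V.a₂ * ((T.u : K) ^ 2 * x + T.r) + V.a₄) =
      (T.u : K) ^ 4 * ((T • V).a₁ * y - (3 * x ^ 2 + 2 * (T • V).a₂ * x + (T • V).a₄)) -
      T.s * ((T.u : K) ^ 3 * (2 * y + (T • V).a₁ * x + (T • V).a₃)) := by
  obtain ⟨h1, h2, h3, h4, h6⟩ := t3_rel T V
  linear_combination (- (T.u : K) ^ 3 * y + T.s * (T.u : K) ^ 2 * x) * h1 +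
    2 * (T.u : K) ^ 2 * x * h2 + T.s * h3 + h4

theorem t3_eq {K : Type} [Field K] (T : WeierstrassCurve.VariableChange K)
    (V : WeierstrassCurve K) {x y : K} (h : (T • V).toAffine.Equation x y) :
    V.toAffine.Equation ((T.u : K) ^ 2 * x + T.r)
      ((T.u : K) ^ 3 * y + (T.u : K) ^ 2 * T.s * x + T.t) := by
  obtain ⟨h1, h2, h3, h4, h6⟩ := t3_rel T V
  rw [WeierstrassCurve.Affine.equation_iff] at h ⊢
  have h' : y ^ 2 + (T • V).a₁ * x * y + (T • V).a₃ * y =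
      x ^ 3 + (T • V).a₂ * x ^ 2 + (T • V).a₄ * x + (T • V).a₆ := h
  change ((T.u : K) ^ 3 * y + (T.u : K) ^ 2 * T.s * x + T.t) ^ 2 +
    V.a₁ * ((T.u : K) ^ 2 * x + T.r) * ((T.u : K) ^ 3 * y + (T.u : K) ^ 2 * T.s * x + T.t) +
    V.a₃ * ((T.u : K) ^ 3 * y + (T.u : K) ^ 2 * T.s * x + T.t) =
    ((T.u : K) ^ 2 * x + T.r) ^ 3 + V.a₂ * ((T.u : K) ^ 2 * x + T.r) ^ 2 +
    V.a₄ * ((T.u : K) ^ 2 * x + T.r) + V.a₆
  linear_combination (T.u : K) ^ 6 * h' - (T.u : K) ^ 5 * x * y * h1 +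
    (T.u : K) ^ 4 * x ^ 2 * h2 - (T.u : K) ^ 3 * y * h3 + (T.u : K) ^ 2 * x * h4 + h6

theorem vc_nonsing {K : Type} [Field K] (T : WeierstrassCurve.VariableChange K)
    (V : WeierstrassCurve K) {x y : K} (h : (T • V).toAffine.Nonsingular x y) :
    V.toAffine.Nonsingular ((T.u : K) ^ 2 * x + T.r)
      ((T.u : K) ^ 3 * y + (T.u : K) ^ 2 * T.s * x + T.t) := by
  have hu : (T.u : K) ≠ 0 := T.u.ne_zero
  rw [WeierstrassCurve.Affine.nonsingular_iff] at h ⊢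
  refine ⟨t3_eq T V h.1, ?_⟩
  by_contra hcon
  push Not at hcon
  obtain ⟨g1, g2⟩ := hcon
  have g1' : V.a₁ * ((T.u : K) ^ 3 * y + (T.u : K) ^ 2 * T.s * x + T.t) =
      3 * ((T.u : K) ^ 2 * x + T.r) ^ 2 + 2 * V.a₂ * ((T.u : K) ^ 2 * x + T.r) + V.a₄ := g1
  have g2' : (T.u : K) ^ 3 * y + (T.u : K) ^ 2 * T.s * x + T.t =
      -((T.u : K) ^ 3 * y + (T.u : K) ^ 2 * T.s * x + T.t) -
      V.a₁ * ((T.u : K) ^ 2 * x + T.r) - V.a₃ := g2
  have hy : 2 * y + (T • V).a₁ * x + (T • V).a₃ = 0 := by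
    have h1 := t3_Fy T V x y
    have h2 : (T.u : K) ^ 3 * (2 * y + (T • V).a₁ * x + (T • V).a₃) = 0 := by
      linear_combination g2' - h1
    exact (mul_eq_zero.1 h2).resolve_left (pow_ne_zero _ hu)
  have hx : (T • V).a₁ * y - (3 * x ^ 2 + 2 * (T • V).a₂ * x + (T • V).a₄) = 0 := by
    have h1 := t3_Fx T V x y
    rw [hy] at h1
    have h2 : (T.u : K) ^ 4 * ((T • V).a₁ * y -
        (3 * x ^ 2 + 2 * (T • V).a₂ * x + (T • V).a₄)) = 0 := by
      linear_combination g1' - h1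
    exact (mul_eq_zero.1 h2).resolve_left (pow_ne_zero _ hu)
  rcases h.2 with h1 | h1
  · apply h1
    change (T • V).a₁ * y = 3 * x ^ 2 + 2 * (T • V).a₂ * x + (T • V).a₄
    linear_combination hx
  · apply h1
    change y = -y - (T • V).a₁ * x - (T • V).a₃
    linear_combination hy

/-- The map on points given by a change of variables. -/
def vc {K : Type} [Field K] (T : WeierstrassCurve.VariableChange K) (V : WeierstrassCurve K) :
    (T • V).toAffine.Point → V.toAffine.Point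
  | .zero => .zero
  | .some x y h => .some ((T.u : K) ^ 2 * x + T.r)
      ((T.u : K) ^ 3 * y + (T.u : K) ^ 2 * T.s * x + T.t) (vc_nonsing T V h)

theorem t3_negY {K : Type} [Field K] (T : WeierstrassCurve.VariableChange K)
    (V : WeierstrassCurve K) (x y : K) :
    V.toAffine.negY ((T.u : K) ^ 2 * x + T.r)
      ((T.u : K) ^ 3 * y + (T.u : K) ^ 2 * T.s * x + T.t) =
      (T.u : K) ^ 3 * (T • V).toAffine.negY x y + (T.u : K) ^ 2 * T.s * x + T.t := by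
  have h := t3_Fy T V x y
  change -((T.u : K) ^ 3 * y + (T.u : K) ^ 2 * T.s * x + T.t) -
    V.a₁ * ((T.u : K) ^ 2 * x + T.r) - V.a₃ =
    (T.u : K) ^ 3 * (-y - (T • V).a₁ * x - (T • V).a₃) + (T.u : K) ^ 2 * T.s * x + T.t
  linear_combination - h

theorem t3_slope {K : Type} [Field K] (T : WeierstrassCurve.VariableChange K)
    (V : WeierstrassCurve K) (x₁ x₂ y₁ y₂ : K)
    (h : ¬ (x₁ = x₂ ∧ y₁ = (T • V).toAffine.negY x₂ y₂))
    (e₁ : (T • V).toAffine.Equation x₁ y₁) (e₂ : (T • V).toAffine.Equation x₂ y₂) :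
    V.toAffine.slope ((T.u : K) ^ 2 * x₁ + T.r) ((T.u : K) ^ 2 * x₂ + T.r)
      ((T.u : K) ^ 3 * y₁ + (T.u : K) ^ 2 * T.s * x₁ + T.t)
      ((T.u : K) ^ 3 * y₂ + (T.u : K) ^ 2 * T.s * x₂ + T.t) =
      (T.u : K) * (T • V).toAffine.slope x₁ x₂ y₁ y₂ + T.s := by
  have hu : (T.u : K) ≠ 0 := T.u.ne_zero
  by_cases hx : x₁ = x₂
  · have hy : y₁ ≠ (T • V).toAffine.negY x₂ y₂ := fun h1 => h ⟨hx, h1⟩
    have hX : (T.u : K) ^ 2 * x₁ + T.r = (T.u : K) ^ 2 * x₂ + T.r := by rw [hx]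
    have hY : (T.u : K) ^ 3 * y₁ + (T.u : K) ^ 2 * T.s * x₁ + T.t ≠
        V.toAffine.negY ((T.u : K) ^ 2 * x₂ + T.r)
          ((T.u : K) ^ 3 * y₂ + (T.u : K) ^ 2 * T.s * x₂ + T.t) := by
      rw [t3_negY, hx]
      intro h1
      apply hy
      have h2 : (T.u : K) ^ 3 * y₁ = (T.u : K) ^ 3 * (T • V).toAffine.negY x₂ y₂ := by
        linear_combination h1
      exact mul_left_cancel₀ (pow_ne_zero _ hu) h2
    rw [WeierstrassCurve.Affine.slope_of_Y_ne hx hy, WeierstrassCurve.Affine.slope_of_Y_ne hX hY,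
      t3_negY]
    have hd : y₁ - (T • V).toAffine.negY x₁ y₁ ≠ 0 := by
      intro h1
      have h2 := WeierstrassCurve.Affine.Y_eq_of_Y_ne e₁ e₂ hx hy
      apply hy
      rw [← hx, ← h2]
      linear_combination h1
    have hd' : (T.u : K) ^ 3 * y₁ + (T.u : K) ^ 2 * T.s * x₁ + T.t -
        ((T.u : K) ^ 3 * (T • V).toAffine.negY x₁ y₁ + (T.u : K) ^ 2 * T.s * x₁ + T.t) =
        (T.u : K) ^ 3 * (y₁ - (T • V).toAffine.negY x₁ y₁) := by ring
    rw [hd', div_eq_iff (mul_ne_zero (pow_ne_zero _ hu) hd)]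
    have h1 := t3_Fx T V x₁ y₁
    have h3 : y₁ - (T • V).toAffine.negY x₁ y₁ = 2 * y₁ + (T • V).a₁ * x₁ + (T • V).a₃ := by
      change y₁ - (-y₁ - (T • V).a₁ * x₁ - (T • V).a₃) = _
      ring
    have h4 : (3 * x₁ ^ 2 + 2 * (T • V).toAffine.a₂ * x₁ + (T • V).toAffine.a₄ -
        (T • V).toAffine.a₁ * y₁) / (y₁ - (T • V).toAffine.negY x₁ y₁) *
        (y₁ - (T • V).toAffine.negY x₁ y₁) =
        3 * x₁ ^ 2 + 2 * (T • V).a₂ * x₁ + (T • V).a₄ - (T • V).a₁ * y₁ :=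
      div_mul_cancel₀ _ hd
    change 3 * ((T.u : K) ^ 2 * x₁ + T.r) ^ 2 + 2 * V.a₂ * ((T.u : K) ^ 2 * x₁ + T.r) + V.a₄ -
      V.a₁ * ((T.u : K) ^ 3 * y₁ + (T.u : K) ^ 2 * T.s * x₁ + T.t) = _
    rw [← h3] at h1
    linear_combination - h1 - (T.u : K) ^ 4 * h4
  · have hX : (T.u : K) ^ 2 * x₁ + T.r ≠ (T.u : K) ^ 2 * x₂ + T.r := by
      intro h1
      apply hx
      have h2 : (T.u : K) ^ 2 * x₁ = (T.u : K) ^ 2 * x₂ := by linear_combination h1
      exact mul_left_cancel₀ (pow_ne_zero _ hu) h2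
    rw [WeierstrassCurve.Affine.slope_of_X_ne hx, WeierstrassCurve.Affine.slope_of_X_ne hX]
    have hd : x₁ - x₂ ≠ 0 := sub_ne_zero.2 hx
    have hd' : (T.u : K) ^ 2 * x₁ + T.r - ((T.u : K) ^ 2 * x₂ + T.r) =
        (T.u : K) ^ 2 * (x₁ - x₂) := by ring
    rw [hd', div_eq_iff (mul_ne_zero (pow_ne_zero _ hu) hd)]
    have h4 : (y₁ - y₂) / (x₁ - x₂) * (x₁ - x₂) = y₁ - y₂ := div_mul_cancel₀ _ hd
    linear_combination - (T.u : K) ^ 3 * h4

theorem t3_addX {K : Type} [Field K] (T : WeierstrassCurve.VariableChange K)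
    (V : WeierstrassCurve K) (x₁ x₂ l : K) :
    V.toAffine.addX ((T.u : K) ^ 2 * x₁ + T.r) ((T.u : K) ^ 2 * x₂ + T.r)
      ((T.u : K) * l + T.s) = (T.u : K) ^ 2 * (T • V).toAffine.addX x₁ x₂ l + T.r := by
  obtain ⟨h1, h2, h3, h4, h6⟩ := t3_rel T V
  change ((T.u : K) * l + T.s) ^ 2 + V.a₁ * ((T.u : K) * l + T.s) - V.a₂ -
    ((T.u : K) ^ 2 * x₁ + T.r) - ((T.u : K) ^ 2 * x₂ + T.r) =
    (T.u : K) ^ 2 * (l ^ 2 + (T • V).a₁ * l - (T • V).a₂ - x₁ - x₂) + T.r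
  linear_combination - (T.u : K) * l * h1 + h2

theorem t3_addY {K : Type} [Field K] (T : WeierstrassCurve.VariableChange K)
    (V : WeierstrassCurve K) (x₁ x₂ y₁ l : K) :
    V.toAffine.addY ((T.u : K) ^ 2 * x₁ + T.r) ((T.u : K) ^ 2 * x₂ + T.r)
      ((T.u : K) ^ 3 * y₁ + (T.u : K) ^ 2 * T.s * x₁ + T.t) ((T.u : K) * l + T.s) =
      (T.u : K) ^ 3 * (T • V).toAffine.addY x₁ x₂ y₁ l +
        (T.u : K) ^ 2 * T.s * (T • V).toAffine.addX x₁ x₂ l + T.t := by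
  have h : V.toAffine.negAddY ((T.u : K) ^ 2 * x₁ + T.r) ((T.u : K) ^ 2 * x₂ + T.r)
      ((T.u : K) ^ 3 * y₁ + (T.u : K) ^ 2 * T.s * x₁ + T.t) ((T.u : K) * l + T.s) =
      (T.u : K) ^ 3 * (T • V).toAffine.negAddY x₁ x₂ y₁ l +
        (T.u : K) ^ 2 * T.s * (T • V).toAffine.addX x₁ x₂ l + T.t := by
    simp only [WeierstrassCurve.Affine.negAddY, t3_addX]
    ring
  rw [WeierstrassCurve.Affine.addY, h, t3_addX, t3_negY]
  rfl

theorem vc_add {K : Type} [Field K] (T : WeierstrassCurve.VariableChange K)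
    (V : WeierstrassCurve K) (P Q : (T • V).toAffine.Point) :
    vc T V (P + Q) = vc T V P + vc T V Q := by
  cases P with
  | zero =>
    have h0 : (WeierstrassCurve.Affine.Point.zero : (T • V).toAffine.Point) = 0 := rfl
    have h1 : vc T V 0 = 0 := rfl
    rw [h0, zero_add, h1, zero_add]
  | some x₁ y₁ h₁ =>
    cases Q with
    | zero =>
      have h0 : (WeierstrassCurve.Affine.Point.zero : (T • V).toAffine.Point) = 0 := rfl
      have h1 : vc T V 0 = 0 := rfl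
      rw [h0, add_zero, h1, add_zero]
    | some x₂ y₂ h₂ =>
      by_cases hxy : x₁ = x₂ ∧ y₁ = (T • V).toAffine.negY x₂ y₂
      · rw [WeierstrassCurve.Affine.Point.add_of_Y_eq hxy.1 hxy.2]
        have h1 : vc T V 0 = 0 := rfl
        rw [h1]
        symm
        apply WeierstrassCurve.Affine.Point.add_of_Y_eq
        · rw [hxy.1]
        · rw [t3_negY, ← hxy.2, hxy.1]
      · rw [WeierstrassCurve.Affine.Point.add_some hxy]
        have hu : (T.u : K) ≠ 0 := T.u.ne_zero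
        have hxy' : ¬ ((T.u : K) ^ 2 * x₁ + T.r = (T.u : K) ^ 2 * x₂ + T.r ∧
            (T.u : K) ^ 3 * y₁ + (T.u : K) ^ 2 * T.s * x₁ + T.t =
            V.toAffine.negY ((T.u : K) ^ 2 * x₂ + T.r)
              ((T.u : K) ^ 3 * y₂ + (T.u : K) ^ 2 * T.s * x₂ + T.t)) := by
          rintro ⟨h3, h4⟩
          apply hxy
          have h5 : x₁ = x₂ := by
            have h6 : (T.u : K) ^ 2 * x₁ = (T.u : K) ^ 2 * x₂ := by linear_combination h3
            exact mul_left_cancel₀ (pow_ne_zero _ hu) h6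
          refine ⟨h5, ?_⟩
          rw [t3_negY, h5] at h4
          have h6 : (T.u : K) ^ 3 * y₁ = (T.u : K) ^ 3 * (T • V).toAffine.negY x₂ y₂ := by
            linear_combination h4
          exact mul_left_cancel₀ (pow_ne_zero _ hu) h6
        simp only [vc]
        rw [WeierstrassCurve.Affine.Point.add_some hxy']
        rw [WeierstrassCurve.Affine.Point.some.injEq]
        rw [t3_slope T V x₁ x₂ y₁ y₂ hxy h₁.1 h₂.1, t3_addX, t3_addY]
        exact ⟨rfl, rfl⟩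

end SB3
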