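import Mathlib

set_option autoImplicit false

namespace SB3

/-! ## [SB3-T4] a subgroup of index at most `2` (file T4.lean) -/

theorem index_closure {G : Type} [AddCommGroup G] (S : Set G)
    (h : ∀ P Q : G, P ∉ S → Q ∉ S → P + Q ∈ S) :
    (AddSubgroup.closure S).index = 1 ∨ (AddSubgroup.closure S).index = 2 := by
  by_cases hT : AddSubgroup.closure S = ⊤
  · left
    rw [AddSubgroup.index_eq_one]
    exact hT
  · right
    have hP : ∃ P : G, P ∉ AddSubgroup.closure S := by
      by_contra hcon
      push Not at hcon
      exact hT (AddSubgroup.ext fun x => ⟨fun _ => AddSubgroup.mem_top x, fun _ => hcon x⟩)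
    obtain ⟨P, hP⟩ := hP
    rw [AddSubgroup.index_eq_two_iff]
    refine ⟨P, fun b => ?_⟩
    by_cases hb : b ∈ AddSubgroup.closure S
    · right
      refine ⟨hb, fun hbP => hP ?_⟩
      exact (AddSubgroup.add_mem_cancel_left _ hb).1 hbP
    · left
      refine ⟨AddSubgroup.subset_closure (h b P ?_ ?_), hb⟩
      · exact fun hS => hb (AddSubgroup.subset_closure hS)
      · exact fun hS => hP (AddSubgroup.subset_closure hS)

end SB3
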