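import Mathlib

set_option autoImplicit false

namespace SB3

/-! ## [SB3-T5] local arithmetic: no integral points with singular reduction (file T5.lean)

`A` is a discrete valuation ring with maximal ideal `𝔪`. -/

variable {A : Type} [CommRing A] [IsDomain A] [IsDiscreteValuationRing A]

lemma t5_mem_iff {π : A} (hπ : Irreducible π) (z : A) :
    z ∈ IsLocalRing.maximalIdeal A ↔ π ∣ z := by
  rw [hπ.maximalIdeal_eq, Ideal.mem_span_singleton]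

lemma t5_mem_of_unit_mul {u z : A} (hu : IsUnit u) (h : u * z ∈ IsLocalRing.maximalIdeal A) :
    z ∈ IsLocalRing.maximalIdeal A := by
  rcases (IsLocalRing.maximalIdeal.isMaximal A).isPrime.mem_or_mem h with h | h
  · exact absurd hu ((IsLocalRing.mem_maximalIdeal _).1 h)
  · exact h

lemma t5_mem_of_sq {z : A} (h : z ^ 2 ∈ IsLocalRing.maximalIdeal A) :
    z ∈ IsLocalRing.maximalIdeal A :=
  (IsLocalRing.maximalIdeal.isMaximal A).isPrime.mem_of_pow_mem _ h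

lemma t5_two_not_dvd (h2 : Irreducible (2 : A)) {r : ℤ} (hr : Odd r) :
    ¬ (2 : A) ∣ ((r : ℤ) : A) ^ 2 := by
  intro hd
  have hd' := h2.prime.dvd_of_dvd_pow hd
  obtain ⟨k, rfl⟩ := hr
  push_cast at hd'
  have h1 : (2 : A) ∣ 1 := by
    have := (dvd_sub hd' (Dvd.intro (k : A) rfl))
    simpa using this
  exact h2.not_isUnit (isUnit_of_dvd_one h1)

lemma t5_three_isUnit (h2 : Irreducible (2 : A)) : IsUnit (3 : A) := by
  by_contra h
  have h3 : (3 : A) ∈ IsLocalRing.maximalIdeal A := (IsLocalRing.mem_maximalIdeal _).2 h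
  have h2' : (2 : A) ∈ IsLocalRing.maximalIdeal A :=
    (IsLocalRing.mem_maximalIdeal _).2 h2.not_isUnit
  have h1 : (1 : A) ∈ IsLocalRing.maximalIdeal A := by
    have := Ideal.sub_mem _ h3 h2'
    have e : (3 : A) - 2 = 1 := by norm_num
    rwa [e] at this
  exact (IsLocalRing.mem_maximalIdeal _).1 h1 isUnit_one

/-- at `3` -/
theorem no_sing_three (h3 : Irreducible (3 : A)) (r : ℤ) (hr : r ^ 2 % 9 = 7) (x y : A)
    (h : y ^ 2 = x ^ 3 + ((-r ^ 2 : ℤ) : A)) (hy : 2 * y ∈ IsLocalRing.maximalIdeal A) :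
    False := by
  have hP := h3.prime
  have h32 : ¬ (3 : A) ∣ 2 := by
    intro hd
    have h1 : (3 : A) ∣ 1 := by
      have := dvd_sub (dvd_refl (3 : A)) hd
      have e : (3 : A) - 2 = 1 := by norm_num
      rwa [e] at this
    exact h3.not_isUnit (isUnit_of_dvd_one h1)
  rw [t5_mem_iff h3] at hy
  obtain ⟨y1, rfl⟩ := (hP.dvd_or_dvd hy).resolve_left h32
  obtain ⟨q, hq⟩ : ∃ q : ℤ, r ^ 2 = 9 * q + 7 := ⟨r ^ 2 / 9, by omega⟩
  have hqA : ((-r ^ 2 : ℤ) : A) = -(9 * (q : A) + 7) := by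
    rw [show (-r ^ 2 : ℤ) = -(9 * q + 7) by rw [← hq]]
    push_cast
    ring
  rw [hqA] at h
  have hx3 : x ^ 3 = 9 * y1 ^ 2 + 9 * (q : A) + 7 := by linear_combination -h
  have hd : (3 : A) ∣ (x - 1) ^ 3 :=
    ⟨3 * y1 ^ 2 + 3 * (q : A) + 2 - x ^ 2 + x, by linear_combination hx3⟩
  obtain ⟨t, ht⟩ := hP.dvd_of_dvd_pow hd
  have hx : x = 1 + 3 * t := by linear_combination ht
  subst hx
  have h6 : (3 : A) * 2 = 3 * (3 * (t + 3 * t ^ 2 + 3 * t ^ 3 - y1 ^ 2 - (q : A))) := by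
    linear_combination -hx3
  have h2 := mul_left_cancel₀ hP.ne_zero h6
  exact h32 ⟨_, h2⟩

/-- at `2`, `r` odd -/
theorem no_sing_two_odd (h2 : Irreducible (2 : A)) (r : ℤ) (hr : Odd r) (x y : A)
    (h : y ^ 2 = x ^ 3 + ((-r ^ 2 : ℤ) : A)) (hx : 3 * x ^ 2 ∈ IsLocalRing.maximalIdeal A) :
    False := by
  have hP := h2.prime
  have hx' := t5_mem_of_sq (t5_mem_of_unit_mul (t5_three_isUnit h2) hx)
  rw [t5_mem_iff h2] at hx'
  obtain ⟨x1, rfl⟩ := hx'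
  push_cast at h
  have hd : (2 : A) ∣ (y - r) ^ 2 := ⟨4 * x1 ^ 3 - y * r, by linear_combination h⟩
  obtain ⟨s, hs⟩ := hP.dvd_of_dvd_pow hd
  have hy : y = r + 2 * s := by linear_combination hs
  subst hy
  have h4 : (2 : A) * ((r : A) ^ 2) = 2 * (2 * (2 * x1 ^ 3 - r * s - s ^ 2)) := by
    linear_combination h
  have h5 := mul_left_cancel₀ hP.ne_zero h4
  exact t5_two_not_dvd h2 hr ⟨_, h5⟩

/-- at `2`, `r = 4 b`, `b` odd -/
theorem no_sing_two_four (h2 : Irreducible (2 : A)) (b : ℤ) (hb : Odd b) (x y : A)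
    (h : y ^ 2 = x ^ 3 + ((-16 * b ^ 2 : ℤ) : A))
    (hx : 3 * x ^ 2 ∈ IsLocalRing.maximalIdeal A) : False := by
  have hP := h2.prime
  have h0 : (2 : A) ≠ 0 := hP.ne_zero
  have hx' := t5_mem_of_sq (t5_mem_of_unit_mul (t5_three_isUnit h2) hx)
  rw [t5_mem_iff h2] at hx'
  obtain ⟨x1, rfl⟩ := hx'
  push_cast at h
  obtain ⟨y1, rfl⟩ : (2 : A) ∣ y := hP.dvd_of_dvd_pow (n := 2)
    ⟨4 * x1 ^ 3 - 8 * (b : A) ^ 2, by linear_combination h⟩
  have e1 : y1 ^ 2 = 2 * x1 ^ 3 - 4 * (b : A) ^ 2 := by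
    have : (2 : A) * 2 * (y1 ^ 2) = 2 * 2 * (2 * x1 ^ 3 - 4 * (b : A) ^ 2) := by
      linear_combination h
    exact mul_left_cancel₀ (mul_ne_zero h0 h0) this
  obtain ⟨y2, rfl⟩ : (2 : A) ∣ y1 := hP.dvd_of_dvd_pow (n := 2)
    ⟨x1 ^ 3 - 2 * (b : A) ^ 2, by linear_combination e1⟩
  have e2 : 2 * y2 ^ 2 = x1 ^ 3 - 2 * (b : A) ^ 2 := by
    have : (2 : A) * (2 * y2 ^ 2) = 2 * (x1 ^ 3 - 2 * (b : A) ^ 2) := by
      linear_combination e1
    exact mul_left_cancel₀ h0 this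
  obtain ⟨x2, rfl⟩ : (2 : A) ∣ x1 := hP.dvd_of_dvd_pow (n := 3)
    ⟨y2 ^ 2 + (b : A) ^ 2, by linear_combination -e2⟩
  have e3 : y2 ^ 2 + (b : A) ^ 2 = 4 * x2 ^ 3 := by
    have : (2 : A) * (y2 ^ 2 + (b : A) ^ 2) = 2 * (4 * x2 ^ 3) := by
      linear_combination e2
    exact mul_left_cancel₀ h0 this
  obtain ⟨s, hs⟩ := hP.dvd_of_dvd_pow (n := 2) (a := y2 - (b : A))
    ⟨2 * x2 ^ 3 - y2 * b, by linear_combination e3⟩
  have hy : y2 = b + 2 * s := by linear_combination hs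
  subst hy
  have e4 : (2 : A) * ((b : A) ^ 2) = 2 * (2 * (x2 ^ 3 - b * s - s ^ 2)) := by
    linear_combination e3
  exact t5_two_not_dvd h2 hb ⟨_, mul_left_cancel₀ h0 e4⟩

omit [IsDomain A] [IsDiscreteValuationRing A] in
lemma t5_two_three_unit (h6 : IsUnit (6 : A)) : IsUnit (2 : A) ∧ IsUnit (3 : A) := by
  have e : (6 : A) = 2 * 3 := by norm_num
  rw [e] at h6
  exact ⟨isUnit_of_mul_isUnit_left h6, isUnit_of_mul_isUnit_right h6⟩

lemma t5_no_root (hns : ∀ x : A, x ^ 2 + 1 ∉ IsLocalRing.maximalIdeal A) {b : A} (hb : IsUnit b)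
    (y : A) : y ^ 2 + b ^ 2 ∉ IsLocalRing.maximalIdeal A := by
  intro hmem
  obtain ⟨c, hc⟩ := hb.exists_right_inv
  apply hns (c * y)
  have := Ideal.mul_mem_left _ (c ^ 2) hmem
  have e : c ^ 2 * (y ^ 2 + b ^ 2) = (c * y) ^ 2 + 1 := by
    linear_combination (b * c + 1) * hc
  rwa [e] at this

/-- at `p > 3`, `p ∣ r` exactly once -/
theorem no_sing_one (p : ℕ) (hp : Irreducible (p : A)) (h6 : IsUnit (6 : A))
    (hns : ∀ x : A, x ^ 2 + 1 ∉ IsLocalRing.maximalIdeal A) (b : ℤ) (hb : IsUnit (b : A)) (x y : A)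
    (h : y ^ 2 = x ^ 3 + ((-(p * b) ^ 2 : ℤ) : A)) (hy : 2 * y ∈ IsLocalRing.maximalIdeal A)
    (hx : 3 * x ^ 2 ∈ IsLocalRing.maximalIdeal A) : False := by
  obtain ⟨hu2, hu3⟩ := t5_two_three_unit h6
  have hP := hp.prime
  have hy' := t5_mem_of_unit_mul hu2 hy
  have hx' := t5_mem_of_sq (t5_mem_of_unit_mul hu3 hx)
  rw [t5_mem_iff hp] at hy' hx'
  obtain ⟨y1, rfl⟩ := hy'
  obtain ⟨x1, rfl⟩ := hx'
  push_cast at h
  have e1 : y1 ^ 2 + (b : A) ^ 2 = p * x1 ^ 3 := by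
    have : (p : A) * p * (y1 ^ 2 + (b : A) ^ 2) = p * p * (p * x1 ^ 3) := by
      linear_combination h
    exact mul_left_cancel₀ (mul_ne_zero hP.ne_zero hP.ne_zero) this
  exact t5_no_root hns hb y1 ((t5_mem_iff hp _).2 ⟨_, e1⟩)

/-- at `p > 3`, `p² ∣ r` exactly -/
theorem no_sing_sq (p : ℕ) (hp : Irreducible (p : A)) (h6 : IsUnit (6 : A))
    (hns : ∀ x : A, x ^ 2 + 1 ∉ IsLocalRing.maximalIdeal A) (b : ℤ) (hb : IsUnit (b : A)) (x y : A)
    (h : y ^ 2 = x ^ 3 + ((-(p ^ 2 * b) ^ 2 : ℤ) : A)) (hy : 2 * y ∈ IsLocalRing.maximalIdeal A)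
    (hx : 3 * x ^ 2 ∈ IsLocalRing.maximalIdeal A) : False := by
  obtain ⟨hu2, hu3⟩ := t5_two_three_unit h6
  have hP := hp.prime
  have h0 := hP.ne_zero
  have hy' := t5_mem_of_unit_mul hu2 hy
  have hx' := t5_mem_of_sq (t5_mem_of_unit_mul hu3 hx)
  rw [t5_mem_iff hp] at hy' hx'
  obtain ⟨y1, rfl⟩ := hy'
  obtain ⟨x1, rfl⟩ := hx'
  push_cast at h
  have e1 : y1 ^ 2 = p * (x1 ^ 3 - p * (b : A) ^ 2) := by
    have : (p : A) * p * (y1 ^ 2) = p * p * (p * (x1 ^ 3 - p * (b : A) ^ 2)) := by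
      linear_combination h
    exact mul_left_cancel₀ (mul_ne_zero h0 h0) this
  obtain ⟨y2, rfl⟩ : (p : A) ∣ y1 := hP.dvd_of_dvd_pow (n := 2) ⟨_, e1⟩
  have e2 : p * y2 ^ 2 = x1 ^ 3 - p * (b : A) ^ 2 := by
    have : (p : A) * (p * y2 ^ 2) = p * (x1 ^ 3 - p * (b : A) ^ 2) := by
      linear_combination e1
    exact mul_left_cancel₀ h0 this
  obtain ⟨x2, rfl⟩ : (p : A) ∣ x1 := hP.dvd_of_dvd_pow (n := 3)
    ⟨y2 ^ 2 + (b : A) ^ 2, by linear_combination -e2⟩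
  have e3 : y2 ^ 2 + (b : A) ^ 2 = p * (p * x2 ^ 3) := by
    have : (p : A) * (y2 ^ 2 + (b : A) ^ 2) = p * (p * (p * x2 ^ 3)) := by
      linear_combination e2
    exact mul_left_cancel₀ h0 this
  exact t5_no_root hns hb y2 ((t5_mem_iff hp _).2 ⟨_, e3⟩)

/-- at the places of good reduction -/
theorem no_sing_good (k : ℤ) (h6 : IsUnit ((6 * k : ℤ) : A)) (x y : A)
    (h : y ^ 2 = x ^ 3 + (k : A)) (hy : 2 * y ∈ IsLocalRing.maximalIdeal A)
    (hx : 3 * x ^ 2 ∈ IsLocalRing.maximalIdeal A) : False := by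
  push_cast at h6
  have hk : IsUnit (k : A) := isUnit_of_mul_isUnit_right h6
  obtain ⟨hu2, hu3⟩ := t5_two_three_unit (isUnit_of_mul_isUnit_left h6)
  have hy' := t5_mem_of_unit_mul hu2 hy
  have hx' := t5_mem_of_sq (t5_mem_of_unit_mul hu3 hx)
  have hk' : (k : A) ∈ IsLocalRing.maximalIdeal A := by
    have e : (k : A) = y * y - x ^ 2 * x := by linear_combination -h
    rw [e]
    exact Ideal.sub_mem _ (Ideal.mul_mem_left _ _ hy') (Ideal.mul_mem_left _ _ hx')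
  exact (IsLocalRing.mem_maximalIdeal _).1 hk' hk

end SB3
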