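import Pool.Agent.MP_ae0bd0_nt.B3.Defs

set_option autoImplicit false

open CM27 BS3
open scoped Classical

namespace SB3

/-! ## [SB3-T6] at `2`, `r = 2 b`, `b` odd: the sum of two points with singular reduction has
nonsingular reduction (file T6.lean)

If `(a₁, b₁), (a₂, b₂)` are integral points of `y² = x³ - 4 b²` with `a₁ ≡ a₂ ≡ 0 mod 2`, then the
`x`-coordinate of their sum (if it is not `0`) is not in the maximal ideal. `hω`: the residue field
contains no primitive cube root of unity. -/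

theorem t6_int (A : Type) [CommRing A] [IsDomain A] (h2 : Prime (2 : A)) (h20 : (2 : A) ≠ 0)
    (b : ℤ) (hb : Odd b) (a y : A) (hy : y ^ 2 = a ^ 3 - (2 * (b : A)) ^ 2)
    (hs : (2 : A) ∣ 3 * a ^ 2) :
    ∃ x s : A, a = 2 * x ∧ y = 2 * (b + 2 * s) ∧ (b + 2 * s) ^ 2 = 2 * x ^ 3 - (b : A) ^ 2 ∧
      ¬ (2 : A) ∣ x := by
  have h2u : ¬ (2 : A) ∣ 1 := fun h => h2.not_isUnit (isUnit_of_dvd_one h)
  have h23 : ¬ (2 : A) ∣ 3 := by
    intro h
    apply h2u
    have h' : (2 : A) ∣ 3 - 2 := dvd_sub h (dvd_refl 2)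
    have h3 : (3 : A) - 2 = 1 := by norm_num
    rwa [h3] at h'
  have hbu : ¬ (2 : A) ∣ (b : A) := by
    intro h
    obtain ⟨c, hc⟩ := hb
    apply h2u
    rw [hc] at h
    push_cast at h
    have h' := dvd_sub h (dvd_mul_right (2 : A) (c : A))
    simpa using h'
  have ha : (2 : A) ∣ a := by
    rcases h2.dvd_or_dvd hs with h | h
    · exact absurd h h23
    · exact h2.dvd_of_dvd_pow h
  obtain ⟨x, rfl⟩ := ha
  have hy2 : (2 : A) ∣ y := by
    apply h2.dvd_of_dvd_pow (n := 2)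
    rw [hy]
    exact ⟨4 * x ^ 3 - 2 * (b : A) ^ 2, by ring⟩
  obtain ⟨y₁, rfl⟩ := hy2
  have hy1 : y₁ ^ 2 = 2 * x ^ 3 - (b : A) ^ 2 := by
    have h : (2 : A) * (2 * (y₁ ^ 2 - (2 * x ^ 3 - (b : A) ^ 2))) = 0 := by
      linear_combination hy
    have h' := (mul_eq_zero.1 ((mul_eq_zero.1 h).resolve_left h20)).resolve_left h20
    exact sub_eq_zero.1 h'
  have hd : (2 : A) ∣ y₁ - b := by
    apply h2.dvd_of_dvd_pow (n := 2)
    refine ⟨x ^ 3 - y₁ * b, ?_⟩
    linear_combination hy1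
  obtain ⟨s, hs'⟩ := hd
  have hys : y₁ = b + 2 * s := by linear_combination hs'
  subst hys
  refine ⟨x, s, rfl, rfl, hy1, ?_⟩
  intro hx
  apply hbu
  apply h2.dvd_of_dvd_pow (n := 2)
  have h3 : (b : A) ^ 2 = x ^ 3 - 2 * (b * s + s ^ 2) := by
    have h : (2 : A) * ((b : A) ^ 2 - (x ^ 3 - 2 * (b * s + s ^ 2))) = 0 := by
      linear_combination hy1
    exact sub_eq_zero.1 ((mul_eq_zero.1 h).resolve_left h20)
  rw [h3]
  exact dvd_sub (dvd_pow hx (by norm_num)) (dvd_mul_right _ _)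

theorem sum_sing (A : Type) [CommRing A] [IsDomain A] [IsDiscreteValuationRing A]
    (K : Type) [Field K] [Algebra A K] [IsFractionRing A K] [CharZero K]
    (h2 : Irreducible (2 : A)) (hω : ∀ x : A, x ^ 2 + x + 1 ∉ IsLocalRing.maximalIdeal A) (b : ℤ)
    (hb : Odd b) (a₁ b₁ a₂ b₂ : A)
    (h₁ : (W (-(2 * b) ^ 2) K).toAffine.Nonsingular (algebraMap A K a₁) (algebraMap A K b₁))
    (h₂ : (W (-(2 * b) ^ 2) K).toAffine.Nonsingular (algebraMap A K a₂) (algebraMap A K b₂))
    (hs₁ : 3 * a₁ ^ 2 ∈ IsLocalRing.maximalIdeal A) (hs₂ : 3 * a₂ ^ 2 ∈ IsLocalRing.maximalIdeal A) :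
    WeierstrassCurve.Affine.Point.some _ _ h₁ + WeierstrassCurve.Affine.Point.some _ _ h₂ = 0 ∨
    ∃ (x y : K) (h : (W (-(2 * b) ^ 2) K).toAffine.Nonsingular x y),
      WeierstrassCurve.Affine.Point.some _ _ h₁ + WeierstrassCurve.Affine.Point.some _ _ h₂ =
        .some x y h ∧
      ∀ a : A, algebraMap A K a = x → a ∉ IsLocalRing.maximalIdeal A := by
  have hinj : Function.Injective (algebraMap A K) := IsFractionRing.injective A K
  have hp : Prime (2 : A) := h2.prime
  have h20 : (2 : A) ≠ 0 := h2.ne_zero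
  have hmem : ∀ z : A, z ∈ IsLocalRing.maximalIdeal A ↔ (2 : A) ∣ z := by
    intro z
    rw [h2.maximalIdeal_eq, Ideal.mem_span_singleton]
  rw [hmem] at hs₁ hs₂
  have heq : ∀ a y : A, (W (-(2 * b) ^ 2) K).toAffine.Nonsingular (algebraMap A K a)
      (algebraMap A K y) → y ^ 2 = a ^ 3 - (2 * (b : A)) ^ 2 := by
    intro a y h
    have h' := ((WeierstrassCurve.Affine.equation_iff' _ _).1 h.1)
    apply hinj
    simp only [W] at h'
    push_cast at h'
    simp only [map_sub, map_pow, map_mul, map_intCast, map_ofNat]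
    linear_combination h'
  have e₁ := heq a₁ b₁ h₁
  have e₂ := heq a₂ b₂ h₂
  obtain ⟨x₁, s₁, hx₁, hy₁, hq₁, hu₁⟩ := t6_int A hp h20 b hb a₁ b₁ e₁ hs₁
  obtain ⟨x₂, s₂, hx₂, hy₂, hq₂, hu₂⟩ := t6_int A hp h20 b hb a₂ b₂ e₂ hs₂
  have hneg : ∀ x y : K, (W (-(2 * b) ^ 2) K).toAffine.negY x y = -y := by
    intro x y
    simp [WeierstrassCurve.Affine.negY, W]
  by_cases hxy : algebraMap A K a₁ = algebraMap A K a₂ ∧
      algebraMap A K b₁ = (W (-(2 * b) ^ 2) K).toAffine.negY (algebraMap A K a₂) (algebraMap A K b₂)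
  · exact Or.inl (WeierstrassCurve.Affine.Point.add_of_Y_eq hxy.1 hxy.2)
  right
  refine ⟨_, _, WeierstrassCurve.Affine.nonsingular_add h₁ h₂ hxy,
    WeierstrassCurve.Affine.Point.add_some hxy, ?_⟩
  intro a ha
  rw [hmem]
  intro hda
  set ℓ := (W (-(2 * b) ^ 2) K).toAffine.slope (algebraMap A K a₁) (algebraMap A K a₂)
    (algebraMap A K b₁) (algebraMap A K b₂) with hℓ
  have haX : algebraMap A K a = ℓ ^ 2 - algebraMap A K a₁ - algebraMap A K a₂ := by
    rw [ha]
    simp [WeierstrassCurve.Affine.addX, W]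
  by_cases ha12 : a₁ = a₂
  · -- the tangent
    subst ha12
    have hb12 : b₁ = b₂ := by
      have h3 : (b₁ - b₂) * (b₁ + b₂) = 0 := by linear_combination e₁ - e₂
      rcases mul_eq_zero.1 h3 with h | h
      · exact sub_eq_zero.1 h
      · exfalso
        apply hxy
        refine ⟨rfl, ?_⟩
        rw [hneg, ← map_neg]
        congr 1
        linear_combination h
    subst hb12
    have hne : algebraMap A K b₁ ≠ (W (-(2 * b) ^ 2) K).toAffine.negY (algebraMap A K a₁)
        (algebraMap A K b₁) := fun h => hxy ⟨rfl, h⟩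
    have hsl := WeierstrassCurve.Affine.slope_of_Y_ne (W := (W (-(2 * b) ^ 2) K).toAffine)
      (x₁ := algebraMap A K a₁) (x₂ := algebraMap A K a₁) (y₁ := algebraMap A K b₁)
      (y₂ := algebraMap A K b₁) rfl hne
    rw [← hℓ, hneg] at hsl
    rw [hneg] at hne
    have hb0 : algebraMap A K b₁ + algebraMap A K b₁ ≠ 0 := by
      intro h
      apply hne
      linear_combination h
    have h4 : ℓ * (2 * algebraMap A K b₁) = 3 * (algebraMap A K a₁) ^ 2 := by
      rw [hsl, sub_neg_eq_add, div_mul_eq_mul_div, div_eq_iff hb0]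
      simp only [W]
      ring
    -- `λ y₁ = 3 x₁²`
    have h5 : ℓ * algebraMap A K (b + 2 * s₁) = algebraMap A K (3 * x₁ ^ 2) := by
      have h6 : (4 : K) * (ℓ * algebraMap A K (b + 2 * s₁) - algebraMap A K (3 * x₁ ^ 2)) = 0 := by
        rw [hy₁, hx₁] at h4
        simp only [map_mul, map_pow, map_ofNat] at h4 ⊢
        linear_combination h4
      exact sub_eq_zero.1 ((mul_eq_zero.1 h6).resolve_left (by norm_num))
    have h7 : (3 * x₁ ^ 2) ^ 2 = (b + 2 * s₁) ^ 2 * (a + 4 * x₁) := by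
      apply hinj
      rw [map_pow, ← h5]
      simp only [map_mul, map_pow, map_ofNat, map_add, haX, hx₁]
      ring
    have h8 : (2 : A) ∣ (3 * x₁ ^ 2) ^ 2 := by
      rw [h7]
      exact Dvd.dvd.mul_left (dvd_add hda ⟨2 * x₁, by ring⟩) _
    have h9 := hp.dvd_of_dvd_pow h8
    rcases hp.dvd_or_dvd h9 with h | h
    · apply hp.not_isUnit
      apply isUnit_of_dvd_one
      have h' : (2 : A) ∣ 3 - 2 := dvd_sub h (dvd_refl 2)
      have h3 : (3 : A) - 2 = 1 := by norm_num
      rwa [h3] at h'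
    · exact hu₁ (hp.dvd_of_dvd_pow h)
  · -- the chord
    have hne : algebraMap A K a₁ ≠ algebraMap A K a₂ := fun h => ha12 (hinj h)
    have hsl := WeierstrassCurve.Affine.slope_of_X_ne (W := (W (-(2 * b) ^ 2) K).toAffine)
      (x₁ := algebraMap A K a₁) (x₂ := algebraMap A K a₂) (y₁ := algebraMap A K b₁)
      (y₂ := algebraMap A K b₂) hne
    rw [← hℓ] at hsl
    have h4 : ℓ * (algebraMap A K a₁ - algebraMap A K a₂) = algebraMap A K b₁ - algebraMap A K b₂ := by
      rw [hsl, div_mul_cancel₀ _ (sub_ne_zero.2 hne)]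
    set w : A := b + s₁ + s₂ with hw
    set U : A := x₁ ^ 2 + x₁ * x₂ + x₂ ^ 2 with hU
    have h5 : ((b + 2 * s₁) - (b + 2 * s₂)) * w = (x₁ - x₂) * U := by
      have h6 : (2 : A) * (((b + 2 * s₁) - (b + 2 * s₂)) * w - (x₁ - x₂) * U) = 0 := by
        rw [hw, hU]
        linear_combination hq₁ - hq₂
      exact sub_eq_zero.1 ((mul_eq_zero.1 h6).resolve_left h20)
    have hx12 : algebraMap A K x₁ - algebraMap A K x₂ ≠ 0 := by
      intro h
      apply hne
      rw [hx₁, hx₂, map_mul, map_mul]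
      linear_combination (algebraMap A K 2) * h
    have h6 : ℓ * (algebraMap A K x₁ - algebraMap A K x₂) =
        algebraMap A K ((b + 2 * s₁) - (b + 2 * s₂)) := by
      have h7 : (2 : K) * (ℓ * (algebraMap A K x₁ - algebraMap A K x₂) -
          algebraMap A K ((b + 2 * s₁) - (b + 2 * s₂))) = 0 := by
        rw [hy₁, hy₂, hx₁, hx₂] at h4
        simp only [map_mul, map_ofNat, map_sub, map_add] at h4 ⊢
        linear_combination h4
      exact sub_eq_zero.1 ((mul_eq_zero.1 h7).resolve_left (by norm_num))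
    have h7 : ℓ * algebraMap A K w = algebraMap A K U := by
      have h8 : (algebraMap A K x₁ - algebraMap A K x₂) * (ℓ * algebraMap A K w) =
          (algebraMap A K x₁ - algebraMap A K x₂) * algebraMap A K U := by
        rw [← map_sub, ← map_mul, ← h5, map_mul, ← h6, map_sub]
        ring
      exact mul_left_cancel₀ hx12 h8
    have h8 : U ^ 2 = w ^ 2 * (a + 2 * x₁ + 2 * x₂) := by
      apply hinj
      rw [map_pow, ← h7]
      simp only [map_mul, map_pow, map_ofNat, map_add, haX, hx₁, hx₂]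
      ring
    have h9 : (2 : A) ∣ U := by
      apply hp.dvd_of_dvd_pow (n := 2)
      rw [h8]
      exact Dvd.dvd.mul_left (dvd_add (dvd_add hda (dvd_mul_right _ _)) (dvd_mul_right _ _)) _
    have hunit : IsUnit x₂ := by
      by_contra hnu
      apply hu₂
      rw [← hmem, IsLocalRing.mem_maximalIdeal]
      exact hnu
    obtain ⟨v, hv⟩ := hunit.exists_right_inv
    apply hω (x₁ * v)
    rw [hmem]
    have h10 : (x₁ * v) ^ 2 + x₁ * v + 1 = U * v ^ 2 := by
      rw [hU]
      linear_combination (-(x₁ * v) - (x₂ * v + 1)) * hv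
    rw [h10]
    exact Dvd.dvd.mul_right h9 _

end SB3
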