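import Pool.Agent.MP_9ab903_nt.S3.S7
import Pool.Agent.MP_ae0bd0_nt.CM.C3

set_option autoImplicit false

open NumberField IsDedekindDomain CM27 BS3
open scoped Classical

namespace SB3

/-! ## [SB3-T7] residue fields of the completions (file T7.lean) -/

theorem t7_card (F : Type) [Field F] [NumberField F] [IsGalois ℚ F] (n : ℕ)
    (hF : Module.finrank ℚ F = 3 ^ n) (p : ℕ) (hp : p.Prime)
    (v : HeightOneSpectrum (𝓞 F)) (hv : (p : 𝓞 F) ∈ v.asIdeal) :
    ∃ f : ℕ, Odd f ∧ Nat.card (𝓞 F ⧸ v.asIdeal) = p ^ f := by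
  have hpf : Fact p.Prime := ⟨hp⟩
  have hp0 : (Ideal.span {(p : ℤ)}) ≠ ⊥ := by
    simp [hp.ne_zero]
  have hprime : (Ideal.span {(p : ℤ)}).IsPrime := by
    rw [Ideal.span_singleton_prime (by exact_mod_cast hp.ne_zero)]
    exact Nat.prime_iff_prime_int.mp hp
  have hmax : (Ideal.span {(p : ℤ)}).IsMaximal := hprime.isMaximal hp0
  have hvpr : v.asIdeal.IsPrime := v.isPrime
  have hlies : v.asIdeal.LiesOver (Ideal.span {(p : ℤ)}) := by
    constructor
    refine hmax.eq_of_le ?_ ?_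
    · exact Ideal.IsPrime.ne_top inferInstance
    · rw [Ideal.span_singleton_le_iff_mem, Ideal.mem_comap]
      simpa using hv
  have hg1 := Ideal.ncard_primesOver_mul_ramificationIdxIn_mul_inertiaDegIn
    (Ideal.span {(p : ℤ)}) (𝓞 F) Gal(F/ℚ)
  rw [IsGalois.card_aut_eq_finrank, hF] at hg1
  refine ⟨(Ideal.span {(p : ℤ)}).inertiaDegIn (𝓞 F), ?_, ?_⟩
  · have hdvd : (Ideal.span {(p : ℤ)}).inertiaDegIn (𝓞 F) ∣ 3 ^ n := by
      rw [← hg1]
      exact dvd_mul_of_dvd_right (dvd_mul_left _ _) _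
    obtain ⟨j, _, hj⟩ := (Nat.dvd_prime_pow Nat.prime_three).1 hdvd
    rw [hj]
    exact Odd.pow (by decide)
  · rw [Ideal.inertiaDegIn_eq_inertiaDeg (Ideal.span {(p : ℤ)}) v.asIdeal Gal(F/ℚ)]
    rw [Ideal.pow_inertiaDeg p v.asIdeal, Ideal.absNorm_apply, Submodule.cardQuot_apply]

theorem t7_mod3 (f : ℕ) (hf : Odd f) : 2 ^ f % 3 = 2 := by
  obtain ⟨g, rfl⟩ := hf
  have h1 : 2 ^ 2 % 3 = 1 := by norm_num
  rw [pow_succ, pow_mul, Nat.mul_mod, Nat.pow_mod, h1]
  simp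

theorem t7_omega (F : Type) [Field F] [NumberField F] [IsGalois ℚ F] (n : ℕ)
    (hF : Module.finrank ℚ F = 3 ^ n) (v : HeightOneSpectrum (𝓞 F)) (hv : (2 : 𝓞 F) ∈ v.asIdeal)
    (x : 𝓞 F) : x ^ 2 + x + 1 ∉ v.asIdeal := by
  intro hx
  obtain ⟨f, hf, hcard⟩ := t7_card F n hF 2 Nat.prime_two v (by exact_mod_cast hv)
  have hvm : v.asIdeal.IsMaximal := v.isMaximal
  let _ : Field (𝓞 F ⧸ v.asIdeal) := Ideal.Quotient.field v.asIdeal
  have hfin : Finite (𝓞 F ⧸ v.asIdeal) := Ring.HasFiniteQuotients.finiteQuotient v.ne_bot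
  let _ : Fintype (𝓞 F ⧸ v.asIdeal) := Fintype.ofFinite _
  set y : 𝓞 F ⧸ v.asIdeal := Ideal.Quotient.mk v.asIdeal x with hy
  have h1 : y ^ 2 + y + 1 = 0 := by
    have h2 := Ideal.Quotient.eq_zero_iff_mem.2 hx
    rw [map_add, map_add, map_pow, map_one] at h2
    exact h2
  have h2 : (2 : 𝓞 F ⧸ v.asIdeal) = 0 := by
    have h3 := Ideal.Quotient.eq_zero_iff_mem.2 hv
    rw [map_ofNat] at h3
    exact h3
  have h3 : y ^ 3 = 1 := by linear_combination (y - 1) * h1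
  have hcard' : Fintype.card (𝓞 F ⧸ v.asIdeal) = 2 ^ f := by
    rw [← Nat.card_eq_fintype_card]; exact hcard
  have h4 : y ^ Fintype.card (𝓞 F ⧸ v.asIdeal) = y := FiniteField.pow_card y
  obtain ⟨k, hk⟩ : ∃ k, 2 ^ f = 3 * k + 2 := ⟨2 ^ f / 3, by have := t7_mod3 f hf; omega⟩
  rw [hcard', hk, pow_add, pow_mul, h3, one_pow, one_mul] at h4
  have hy0 : y ≠ 0 := by
    intro h5
    rw [h5] at h3
    norm_num at h3
  have h5 : y = 1 := by
    have h6 : y * (y - 1) = 0 := by linear_combination h4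
    rcases mul_eq_zero.1 h6 with h7 | h7
    · exact absurd h7 hy0
    · exact sub_eq_zero.1 h7
  rw [h5] at h1
  have h6 : (1 : 𝓞 F ⧸ v.asIdeal) = 0 := by linear_combination h1 - h2
  exact one_ne_zero h6

/-- `-1` is not a square modulo the maximal ideal of the completion (uses the stub S7). -/
theorem neg_one_integers (F : Type) [Field F] [NumberField F] [IsGalois ℚ F] (n : ℕ)
    (hF : Module.finrank ℚ F = 3 ^ n) (p : ℕ) (hp : p.Prime) (hp4 : p % 4 = 3)
    (v : HeightOneSpectrum (𝓞 F)) (hv : (p : 𝓞 F) ∈ v.asIdeal)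
    (x : v.adicCompletionIntegers F) :
    x ^ 2 + 1 ∉ IsLocalRing.maximalIdeal (v.adicCompletionIntegers F) := by
  intro hx
  have h1 := (c3_mem_max F v _).1 hx
  have h2 : ((x ^ 2 + 1 : v.adicCompletionIntegers F) : v.adicCompletion F) =
      (x : v.adicCompletion F) ^ 2 + 1 := by
    rw [AddMemClass.coe_add, SubmonoidClass.coe_pow, OneMemClass.coe_one]
  rw [h2] at h1
  exact neg_one_nonsq_completion F n hF p hp hp4 v hv (x : v.adicCompletion F) h1

/-- There is no primitive cube root of unity in the residue fields above `2`. -/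
theorem omega_integers (F : Type) [Field F] [NumberField F] [IsGalois ℚ F] (n : ℕ)
    (hF : Module.finrank ℚ F = 3 ^ n) (v : HeightOneSpectrum (𝓞 F)) (hv : (2 : 𝓞 F) ∈ v.asIdeal)
    (x : v.adicCompletionIntegers F) :
    x ^ 2 + x + 1 ∉ IsLocalRing.maximalIdeal (v.adicCompletionIntegers F) := by
  intro hx
  obtain ⟨r, hr⟩ := c3_approx F v x
  apply t7_omega F n hF v hv r
  set R : v.adicCompletionIntegers F := algebraMap (𝓞 F) (v.adicCompletionIntegers F) r with hR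
  have h1 : x - R ∈ IsLocalRing.maximalIdeal (v.adicCompletionIntegers F) :=
    (c3_mem_max F v _).2 hr
  have h2 : R ^ 2 + R + 1 ∈ IsLocalRing.maximalIdeal (v.adicCompletionIntegers F) := by
    have h3 : R ^ 2 + R + 1 = (x ^ 2 + x + 1) - (x - R) * (x + R + 1) := by ring
    rw [h3]
    exact Ideal.sub_mem _ hx (Ideal.mul_mem_right _ _ h1)
  have h4 : R ^ 2 + R + 1 = algebraMap (𝓞 F) (v.adicCompletionIntegers F) (r ^ 2 + r + 1) := by
    rw [hR, map_add, map_add, map_pow, map_one]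
  rw [h4, c3_mem_max, c3_val, HeightOneSpectrum.intValuation_lt_one_iff_mem] at h2
  exact h2

end SB3
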