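import Pool.Agent.MP_9ab903_nt.T3.T1
import Pool.Agent.MP_9ab903_nt.T3.T2
import Pool.Agent.MP_9ab903_nt.T3.T3
import Pool.Agent.MP_9ab903_nt.T3.T4
import Pool.Agent.MP_9ab903_nt.T3.T5
import Pool.Agent.MP_9ab903_nt.T3.T6
import Pool.Agent.MP_9ab903_nt.T3.T7
import Pool.Agent.MP_9ab903_nt.T3.T8
import Pool.Agent.MP_9ab903_nt.T3.T9
import Pool.Agent.MP_ae0bd0_nt.B3.Z7
import Pool.Agent.MP_ae0bd0_nt.B3.Z8
import Pool.Agent.MP_ae0bd0_nt.B3.Q13

set_option autoImplicit false

open NumberField IsDedekindDomain CM27 BS3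
open scoped Classical

namespace SB3

/-! ## [SB3-TAM] Tamagawa numbers, Néron factors and periods of `y² = x³ - r²` (file TAM.lean) -/

section Local

variable (A : Type) [CommRing A] [IsDomain A] [IsDiscreteValuationRing A]
    (K : Type) [Field K] [Algebra A K] [IsFractionRing A K] [CharZero K]

/-- All points of the minimal equation have nonsingular reduction. -/
theorem tam_one_of (k : ℤ)
    (hu : ∀ T : WeierstrassCurve.VariableChange K, WeierstrassCurve.IsMinimal A (T • W k K) →
      (IsDiscreteValuationRing.maximalIdeal A).valuation K (T.u : K) = 1)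
    (hns : ∀ a b : A, b ^ 2 = a ^ 3 + k → 2 * b ∈ IsLocalRing.maximalIdeal A →
      3 * a ^ 2 ∈ IsLocalRing.maximalIdeal A → False) : SBSD.tamagawa A (W k K) = 1 := by
  obtain ⟨T, hT, hTm⟩ : ∃ T : WeierstrassCurve.VariableChange K,
      (W k K).minimal A = T • W k K ∧ WeierstrassCurve.IsMinimal A (T • W k K) :=
    ⟨_, rfl, ((W k K).exists_isMinimal A).choose_spec⟩
  refine SBSD.tamagawa_eq_one A (W k K) fun P => ?_
  rcases P with _ | ⟨x, y, h⟩
  · trivial
  · by_contra hs
    obtain ⟨a, b, -, -, h1, h2, h3⟩ := sing_point A K k T _ hT (hu T hTm) x y h hs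
    exact hns a b h1 h2 h3

theorem tam_two_aux (b : ℤ) (hb : Odd b) (h2 : Irreducible (2 : A))
    (hω : ∀ x : A, x ^ 2 + x + 1 ∉ IsLocalRing.maximalIdeal A)
    (T : WeierstrassCurve.VariableChange K) (W' : WeierstrassCurve K) [W'.IsMinimal A]
    (hW : W' = T • W (-(2 * b) ^ 2) K)
    (hu : (IsDiscreteValuationRing.maximalIdeal A).valuation K (T.u : K) = 1) :
    (AddSubgroup.closure {P : W'.toAffine.Point | SBSD.NonsingularReduction A W' P}).index = 1 ∨
    (AddSubgroup.closure {P : W'.toAffine.Point | SBSD.NonsingularReduction A W' P}).index = 2 := by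
  have key := fun x y h hs => sing_point A K (-(2 * b) ^ 2) T W' hW hu x y h hs
  have h3u : IsUnit (3 : A) := by
    have hm := (IsLocalRing.mem_maximalIdeal (2 : A)).2 h2.not_isUnit
    by_contra h3
    have h3m := (IsLocalRing.mem_maximalIdeal (3 : A)).2 h3
    have h1 : (1 : A) ∈ IsLocalRing.maximalIdeal A := by
      have := Ideal.sub_mem _ h3m hm
      norm_num at this
    exact (Ideal.ne_top_iff_one _).1 (IsLocalRing.maximalIdeal.isMaximal A).ne_top h1
  subst hW
  refine index_closure _ ?_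
  rintro P Q hP hQ
  rcases P with _ | ⟨x₁, y₁, h₁⟩
  · exact absurd trivial hP
  rcases Q with _ | ⟨x₂, y₂, h₂⟩
  · exact absurd trivial hQ
  by_contra hPQ
  obtain ⟨a₁, b₁, ha₁, hb₁, -, -, hs₁⟩ := key x₁ y₁ h₁ hP
  obtain ⟨a₂, b₂, ha₂, hb₂, -, -, hs₂⟩ := key x₂ y₂ h₂ hQ
  have hv := vc_add T (W (-(2 * b) ^ 2) K) (.some x₁ y₁ h₁) (.some x₂ y₂ h₂)
  have n₁ := vc_nonsing T (W (-(2 * b) ^ 2) K) h₁
  have n₂ := vc_nonsing T (W (-(2 * b) ^ 2) K) h₂
  have n₁' : (W (-(2 * b) ^ 2) K).toAffine.Nonsingular (algebraMap A K a₁) (algebraMap A K b₁) := by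
    rw [ha₁, hb₁]; exact n₁
  have n₂' : (W (-(2 * b) ^ 2) K).toAffine.Nonsingular (algebraMap A K a₂) (algebraMap A K b₂) := by
    rw [ha₂, hb₂]; exact n₂
  have e₁ : vc T (W (-(2 * b) ^ 2) K) (.some x₁ y₁ h₁) =
      .some (algebraMap A K a₁) (algebraMap A K b₁) n₁' := by
    simp only [vc, ha₁, hb₁]
  have e₂ : vc T (W (-(2 * b) ^ 2) K) (.some x₂ y₂ h₂) =
      .some (algebraMap A K a₂) (algebraMap A K b₂) n₂' := by
    simp only [vc, ha₂, hb₂]
  rw [e₁, e₂] at hv
  have hsum := sum_sing A K h2 hω b hb a₁ b₁ a₂ b₂ n₁' n₂' hs₁ hs₂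
  rw [← hv] at hsum
  generalize (WeierstrassCurve.Affine.Point.some x₁ y₁ h₁ +
    WeierstrassCurve.Affine.Point.some x₂ y₂ h₂) = R at hPQ hsum
  rcases R with _ | ⟨x₃, y₃, h₃⟩
  · exact hPQ trivial
  · obtain ⟨a₃, b₃, ha₃, hb₃, -, -, hs₃⟩ := key x₃ y₃ h₃ hPQ
    rcases hsum with h0 | ⟨x, y, h, hR, hx⟩
    · simp only [vc] at h0
      exact WeierstrassCurve.Affine.Point.some_ne_zero _ h0
    · simp only [vc, WeierstrassCurve.Affine.Point.some.injEq] at hR
      refine hx a₃ (ha₃.trans hR.1) ?_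
      have h4 := Ideal.IsPrime.mem_or_mem (IsLocalRing.maximalIdeal.isMaximal A).isPrime hs₃
      rcases h4 with h4 | h4
      · exact absurd h3u ((IsLocalRing.mem_maximalIdeal _).1 h4)
      · exact Ideal.IsPrime.mem_of_pow_mem (IsLocalRing.maximalIdeal.isMaximal A).isPrime 2 h4

theorem tam_two_of (b : ℤ) (hb : Odd b) (h2 : Irreducible (2 : A))
    (hω : ∀ x : A, x ^ 2 + x + 1 ∉ IsLocalRing.maximalIdeal A)
    (hu : ∀ T : WeierstrassCurve.VariableChange K,
      WeierstrassCurve.IsMinimal A (T • W (-(2 * b) ^ 2) K) →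
      (IsDiscreteValuationRing.maximalIdeal A).valuation K (T.u : K) = 1) :
    SBSD.tamagawa A (W (-(2 * b) ^ 2) K) = 1 ∨ SBSD.tamagawa A (W (-(2 * b) ^ 2) K) = 2 := by
  obtain ⟨T, hT, hTm⟩ : ∃ T : WeierstrassCurve.VariableChange K,
      (W (-(2 * b) ^ 2) K).minimal A = T • W (-(2 * b) ^ 2) K ∧
      WeierstrassCurve.IsMinimal A (T • W (-(2 * b) ^ 2) K) :=
    ⟨_, rfl, ((W (-(2 * b) ^ 2) K).exists_isMinimal A).choose_spec⟩
  unfold SBSD.tamagawa
  exact tam_two_aux A K b hb h2 hω T _ hT (hu T hTm)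

end Local

/-- The local statements at a finite place of `F`. -/
theorem local_facts {r : ℕ} (hr : Adm r) (F : Type) [Field F] [NumberField F] [IsGalois ℚ F]
    (n : ℕ) (hF : Module.finrank ℚ F = 3 ^ n) (hun : ∀ p, p.Prime → p ∣ 6 * r → Unram p F)
    (v : HeightOneSpectrum (𝓞 F)) :
    (∀ T : WeierstrassCurve.VariableChange (v.adicCompletion F),
      WeierstrassCurve.IsMinimal (v.adicCompletionIntegers F)
        (T • W (-(r : ℤ) ^ 2) (v.adicCompletion F)) →
      (IsDiscreteValuationRing.maximalIdeal (v.adicCompletionIntegers F)).valuation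
        (v.adicCompletion F) (T.u : v.adicCompletion F) = 1) ∧
    (SBSD.tamagawa (v.adicCompletionIntegers F) (W (-(r : ℤ) ^ 2) (v.adicCompletion F)) = 1 ∨
      SBSD.tamagawa (v.adicCompletionIntegers F) (W (-(r : ℤ) ^ 2) (v.adicCompletion F)) = 2) := by
  have hchar := p5_charZero F v
  have hr0 := hr.ne_zero
  by_cases h6 : ((6 * (-(r : ℤ) ^ 2) : ℤ) : 𝓞 F) ∈ v.asIdeal
  · -- bad places
    obtain ⟨p, hp, hpd, hpv⟩ := exists_prime_of_mem v _ (by
      refine mul_ne_zero (by norm_num) (neg_ne_zero.2 (pow_ne_zero 2 ?_))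
      exact_mod_cast hr0) h6
    obtain ⟨hr9, hcf, hpf⟩ := hr
    have hpZ : Prime (p : ℤ) := Nat.prime_iff_prime_int.1 hp
    have hcase : p = 3 ∨ p = 2 ∨ (p % 12 = 7 ∧ p ∣ r) := by
      rcases hpZ.dvd_or_dvd hpd with h | h
      · have h1 : p ∣ 6 := by exact_mod_cast h
        have h2 : p ≤ 6 := Nat.le_of_dvd (by norm_num) h1
        interval_cases p <;>
          first | (left; rfl) | (right; left; rfl) | (exfalso; revert hp h1; decide)
      · rw [dvd_neg] at h
        have h1 : (p : ℤ) ∣ (r : ℤ) := hpZ.dvd_of_dvd_pow h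
        have h2 : p ∣ r := by exact_mod_cast h1
        rcases hpf p hp h2 with h3 | h3
        · exact Or.inr (Or.inl h3)
        · exact Or.inr (Or.inr ⟨h3, h2⟩)
    have hp6 : p ∣ 6 * r := by
      rcases hcase with rfl | rfl | ⟨-, h⟩
      · exact Dvd.dvd.mul_right (by norm_num) _
      · exact Dvd.dvd.mul_right (by norm_num) _
      · exact h.mul_left _
    have hirr : Irreducible (p : v.adicCompletionIntegers F) :=
      irreducible_completion F v p hpv (hun p hp hp6 v hpv)
    -- `r = p ^ e * r'`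
    obtain ⟨e, r', hr', hre⟩ := Nat.exists_eq_pow_mul_and_not_dvd hr0 p hp.ne_one
    have he : e ≤ 2 := by
      by_contra hcon
      push Not at hcon
      apply hcf p hp
      rw [hre]
      exact Dvd.dvd.mul_right (pow_dvd_pow p hcon) _
    have hr'u : IsUnit ((r' : ℤ) : v.adicCompletionIntegers F) :=
      z7_cop F v p hp hpv r' (by intro h; exact hr' (by exact_mod_cast h))
    rcases hcase with rfl | rfl | ⟨h7, hdvd⟩
    · -- `p = 3`
      have h3 : ¬ 3 ∣ r := by omega
      have he0 : e = 0 := by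
        by_contra hcon
        exact h3 (by rw [hre]; exact Dvd.dvd.mul_right (dvd_pow_self 3 hcon) _)
      rw [he0, pow_zero, one_mul] at hre
      rw [← hre] at hr'u
      have h2 : IsUnit ((2 : ℤ) : v.adicCompletionIntegers F) :=
        z7_cop F v 3 hp hpv 2 (by norm_num)
      have hu : ∀ T : WeierstrassCurve.VariableChange (v.adicCompletion F),
          WeierstrassCurve.IsMinimal (v.adicCompletionIntegers F)
            (T • W (-(r : ℤ) ^ 2) (v.adicCompletion F)) → _ :=
        fun T hT => u_unit_of_lt (v.adicCompletionIntegers F) (v.adicCompletion F) (-(r : ℤ) ^ 2)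
          ((3 : ℕ) : v.adicCompletionIntegers F) hirr 3 (by norm_num)
          (-(((2 : ℤ) : v.adicCompletionIntegers F) ^ 4 *
            ((r : ℤ) : v.adicCompletionIntegers F) ^ 4))
          ((h2.pow 4).mul (hr'u.pow 4)).neg (by push_cast; ring) T hT
      refine ⟨hu, Or.inl (tam_one_of _ _ _ hu ?_)⟩
      intro a b h hb _
      refine no_sing_three (by exact_mod_cast hirr) (r : ℤ) ?_ a b h hb
      have h9 : ((r : ℤ) % 9 = 4 ∨ (r : ℤ) % 9 = 5) := by omega
      rcases h9 with h9 | h9 <;> rw [pow_two, Int.mul_emod, h9] <;> norm_num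
    · -- `p = 2`
      have h3 : IsUnit ((3 : ℤ) : v.adicCompletionIntegers F) :=
        z7_cop F v 2 hp hpv 3 (by norm_num)
      have hodd : Odd (r' : ℤ) := by
        rw [Int.odd_coe_nat, ← Nat.not_even_iff_odd, even_iff_two_dvd]
        exact hr'
      interval_cases e
      · rw [pow_zero, one_mul] at hre
        rw [← hre] at hr'u hodd
        have hu : ∀ T : WeierstrassCurve.VariableChange (v.adicCompletion F),
            WeierstrassCurve.IsMinimal (v.adicCompletionIntegers F)
              (T • W (-(r : ℤ) ^ 2) (v.adicCompletion F)) → _ :=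
          fun T hT => u_unit_of_lt (v.adicCompletionIntegers F) (v.adicCompletion F) (-(r : ℤ) ^ 2)
            ((2 : ℕ) : v.adicCompletionIntegers F) hirr 4 (by norm_num)
            (-(((3 : ℤ) : v.adicCompletionIntegers F) ^ 3 *
              ((r : ℤ) : v.adicCompletionIntegers F) ^ 4))
            ((h3.pow 3).mul (hr'u.pow 4)).neg (by push_cast; ring) T hT
        refine ⟨hu, Or.inl (tam_one_of _ _ _ hu ?_)⟩
        intro a b h _ ha
        exact no_sing_two_odd (by exact_mod_cast hirr) (r : ℤ) hodd a b h ha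
      · have h4 : -(r : ℤ) ^ 2 = -(2 * (r' : ℤ)) ^ 2 := by
          rw [hre]
          push_cast
          ring
        rw [h4]
        have hu : ∀ T : WeierstrassCurve.VariableChange (v.adicCompletion F),
            WeierstrassCurve.IsMinimal (v.adicCompletionIntegers F)
              (T • W (-(2 * (r' : ℤ)) ^ 2) (v.adicCompletion F)) → _ :=
          fun T hT => u_unit_of_lt (v.adicCompletionIntegers F) (v.adicCompletion F)
            (-(2 * (r' : ℤ)) ^ 2)
            ((2 : ℕ) : v.adicCompletionIntegers F) hirr 8 (by norm_num)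
            (-(((3 : ℤ) : v.adicCompletionIntegers F) ^ 3 *
              ((r' : ℤ) : v.adicCompletionIntegers F) ^ 4))
            ((h3.pow 3).mul (hr'u.pow 4)).neg (by push_cast; ring) T hT
        refine ⟨hu, tam_two_of _ _ (r' : ℤ) hodd (by exact_mod_cast hirr) ?_ hu⟩
        exact omega_integers F n hF v (by exact_mod_cast hpv)
      · have h4 : -(r : ℤ) ^ 2 = -16 * (r' : ℤ) ^ 2 := by
          rw [hre]
          push_cast
          ring
        rw [h4]
        have hu : ∀ T : WeierstrassCurve.VariableChange (v.adicCompletion F),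
            WeierstrassCurve.IsMinimal (v.adicCompletionIntegers F)
              (T • W (-16 * (r' : ℤ) ^ 2) (v.adicCompletion F)) → _ :=
          fun T hT => u_unit_two (v.adicCompletionIntegers F) (v.adicCompletion F) (r' : ℤ) hodd
            (by exact_mod_cast hirr) T hT
        refine ⟨hu, Or.inl (tam_one_of _ _ _ hu ?_)⟩
        intro a b h _ ha
        exact no_sing_two_four (by exact_mod_cast hirr) (r' : ℤ) hodd a b h ha
    · -- `p ∣ r` odd
      have h2 : IsUnit ((2 : ℤ) : v.adicCompletionIntegers F) := by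
        apply z7_cop F v p hp hpv
        intro h
        have := Int.le_of_dvd (by norm_num) h
        omega
      have h3 : IsUnit ((3 : ℤ) : v.adicCompletionIntegers F) := by
        apply z7_cop F v p hp hpv
        intro h
        have := Int.le_of_dvd (by norm_num) h
        omega
      have h6' : IsUnit (6 : v.adicCompletionIntegers F) := by
        have := h2.mul h3
        have h23 : (6 : v.adicCompletionIntegers F) = ((2 : ℤ) : v.adicCompletionIntegers F) *
          ((3 : ℤ) : v.adicCompletionIntegers F) := by push_cast; norm_num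
        rw [h23]
        exact this
      have hns := neg_one_integers F n hF p hp (by omega) v hpv
      interval_cases e
      · rw [pow_zero, one_mul] at hre
        rw [hre] at hdvd
        exact absurd hdvd hr'
      · have h4 : -(r : ℤ) ^ 2 = -((p : ℤ) * (r' : ℤ)) ^ 2 := by
          rw [hre]
          push_cast
          ring
        rw [h4]
        have hu : ∀ T : WeierstrassCurve.VariableChange (v.adicCompletion F),
            WeierstrassCurve.IsMinimal (v.adicCompletionIntegers F)
              (T • W (-((p : ℤ) * (r' : ℤ)) ^ 2) (v.adicCompletion F)) → _ :=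
          fun T hT => u_unit_of_lt (v.adicCompletionIntegers F) (v.adicCompletion F)
            (-((p : ℤ) * (r' : ℤ)) ^ 2)
            ((p : ℕ) : v.adicCompletionIntegers F) hirr 4 (by norm_num)
            (-(((2 : ℤ) : v.adicCompletionIntegers F) ^ 4 *
              ((3 : ℤ) : v.adicCompletionIntegers F) ^ 3 *
              ((r' : ℤ) : v.adicCompletionIntegers F) ^ 4))
            (((h2.pow 4).mul (h3.pow 3)).mul (hr'u.pow 4)).neg (by push_cast; ring) T hT
        refine ⟨hu, Or.inl (tam_one_of _ _ _ hu ?_)⟩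
        intro a b h hb ha
        exact no_sing_one p hirr h6' hns (r' : ℤ) hr'u a b h hb ha
      · have h4 : -(r : ℤ) ^ 2 = -((p : ℤ) ^ 2 * (r' : ℤ)) ^ 2 := by
          rw [hre]
          push_cast
          ring
        rw [h4]
        have hu : ∀ T : WeierstrassCurve.VariableChange (v.adicCompletion F),
            WeierstrassCurve.IsMinimal (v.adicCompletionIntegers F)
              (T • W (-((p : ℤ) ^ 2 * (r' : ℤ)) ^ 2) (v.adicCompletion F)) → _ :=
          fun T hT => u_unit_of_lt (v.adicCompletionIntegers F) (v.adicCompletion F)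
            (-((p : ℤ) ^ 2 * (r' : ℤ)) ^ 2)
            ((p : ℕ) : v.adicCompletionIntegers F) hirr 8 (by norm_num)
            (-(((2 : ℤ) : v.adicCompletionIntegers F) ^ 4 *
              ((3 : ℤ) : v.adicCompletionIntegers F) ^ 3 *
              ((r' : ℤ) : v.adicCompletionIntegers F) ^ 4))
            (((h2.pow 4).mul (h3.pow 3)).mul (hr'u.pow 4)).neg (by push_cast; ring) T hT
        refine ⟨hu, Or.inl (tam_one_of _ _ _ hu ?_)⟩
        intro a b h hb ha
        exact no_sing_sq p hirr h6' hns (r' : ℤ) hr'u a b h hb ha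
  · -- good places
    have h6u : IsUnit (((6 * (-(r : ℤ) ^ 2) : ℤ)) : v.adicCompletionIntegers F) :=
      p5_isUnit_int F v _ h6
    have hfac : (-432 * (((-(r : ℤ) ^ 2 : ℤ)) : v.adicCompletionIntegers F) ^ 2) =
        -12 * (((6 * (-(r : ℤ) ^ 2) : ℤ)) : v.adicCompletionIntegers F) ^ 2 := by
      push_cast; ring
    have h6' : IsUnit (6 : v.adicCompletionIntegers F) := by
      push_cast at h6u
      exact isUnit_of_mul_isUnit_left h6u
    have h12 : IsUnit (-12 : v.adicCompletionIntegers F) := by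
      have h36 : IsUnit (-12 * (-3) : v.adicCompletionIntegers F) := by
        have := h6'.mul h6'
        norm_num at this ⊢
        exact this
      exact isUnit_of_mul_isUnit_left h36
    obtain ⟨ϖ, hϖ⟩ := IsDiscreteValuationRing.exists_irreducible (v.adicCompletionIntegers F)
    have hu : ∀ T : WeierstrassCurve.VariableChange (v.adicCompletion F),
        WeierstrassCurve.IsMinimal (v.adicCompletionIntegers F)
          (T • W (-(r : ℤ) ^ 2) (v.adicCompletion F)) → _ :=
      fun T hT => u_unit_of_lt (v.adicCompletionIntegers F) (v.adicCompletion F) (-(r : ℤ) ^ 2)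
        ϖ hϖ 0 (by norm_num)
        (-12 * (((6 * (-(r : ℤ) ^ 2) : ℤ)) : v.adicCompletionIntegers F) ^ 2)
        (h12.mul (h6u.pow 2)) (by rw [hfac, pow_zero, one_mul]) T hT
    refine ⟨hu, Or.inl (tam_one_of _ _ _ hu ?_)⟩
    intro a b h hb ha
    exact no_sing_good (-(r : ℤ) ^ 2) h6u a b h hb ha

theorem tam_cases {r : ℕ} (hr : Adm r) (F : Type) [Field F] [NumberField F] [IsGalois ℚ F]
    (n : ℕ) (hF : Module.finrank ℚ F = 3 ^ n) (hun : ∀ p, p.Prime → p ∣ 6 * r → Unram p F)
    (v : HeightOneSpectrum (𝓞 F)) :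
    SBSD.tam (W (-(r : ℤ) ^ 2) F) v = 1 ∨ SBSD.tam (W (-(r : ℤ) ^ 2) F) v = 2 := by
  unfold SBSD.tam
  rw [p5_baseChange]
  exact (local_facts hr F n hF hun v).2

theorem neron_one {r : ℕ} (hr : Adm r) (F : Type) [Field F] [NumberField F] [IsGalois ℚ F]
    (n : ℕ) (hF : Module.finrank ℚ F = 3 ^ n) (hun : ∀ p, p.Prime → p ∣ 6 * r → Unram p F)
    (v : HeightOneSpectrum (𝓞 F)) : SBSD.neron (W (-(r : ℤ) ^ 2) F) v = 1 := by
  have hu : (IsDiscreteValuationRing.maximalIdeal (v.adicCompletionIntegers F)).valuation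
      (v.adicCompletion F) (((((W (-(r : ℤ) ^ 2) F).baseChange (v.adicCompletion F)).exists_isMinimal
        (v.adicCompletionIntegers F)).choose.u : (v.adicCompletion F)ˣ) : v.adicCompletion F)
        = 1 := by
    have hmin := (((W (-(r : ℤ) ^ 2) F).baseChange (v.adicCompletion F)).exists_isMinimal
        (v.adicCompletionIntegers F)).choose_spec
    generalize (((W (-(r : ℤ) ^ 2) F).baseChange (v.adicCompletion F)).exists_isMinimal
        (v.adicCompletionIntegers F)).choose = T at hmin ⊢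
    rw [p5_baseChange] at hmin
    exact (local_facts hr F n hF hun v).1 T hmin
  unfold SBSD.neron
  generalize (((((W (-(r : ℤ) ^ 2) F).baseChange (v.adicCompletion F)).exists_isMinimal
        (v.adicCompletionIntegers F)).choose.u : (v.adicCompletion F)ˣ) : v.adicCompletion F) = u
        at hu ⊢
  have hmem : u ∈ MonoidHom.mker ((IsDiscreteValuationRing.maximalIdeal
      (v.adicCompletionIntegers F)).valuation (v.adicCompletion F)) := hu
  rw [IsDiscreteValuationRing.mker_valuation_eq_isUnitSubmonoid] at hmem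
  obtain ⟨u₀, hu₀, rfl⟩ := hmem
  have hu₀' : IsUnit u₀ := hu₀
  rw [HeightOneSpectrum.adicCompletionIntegers.isUnit_iff_valued_eq_one] at hu₀'
  rw [inv_eq_one]
  have h1 : algebraMap (v.adicCompletionIntegers F) (v.adicCompletion F) u₀ =
      (u₀ : v.adicCompletion F) := rfl
  rw [h1, FinitePlace.norm_def, hu₀', map_one]
  rfl

/-- The product of the Tamagawa numbers is a power of `2`. -/
theorem finprod_tam3 {r : ℕ} (hr : Adm r) (F : Type) [Field F] [NumberField F] [IsGalois ℚ F]
    (n : ℕ) (hF : Module.finrank ℚ F = 3 ^ n) (hun : ∀ p, p.Prime → p ∣ 6 * r → Unram p F) :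
    ∃ j : ℕ, ∏ᶠ v : HeightOneSpectrum (𝓞 F), SBSD.tam (W (-(r : ℤ) ^ 2) F) v = 2 ^ j := by
  refine finprod_induction (p := fun t : ℕ => ∃ j : ℕ, t = 2 ^ j) ⟨0, rfl⟩ ?_ ?_
  · rintro a b ⟨i, rfl⟩ ⟨j, rfl⟩
    exact ⟨i + j, (pow_add _ _ _).symm⟩
  · intro v
    rcases tam_cases hr F n hF hun v with h | h
    · exact ⟨0, h⟩
    · exact ⟨1, by rw [h, pow_one]⟩

/-- The period. -/
theorem period3 {r : ℕ} (hr : Adm r) (F : Type) [Field F] [NumberField F] [IsGalois ℚ F]
    (n : ℕ) (hF : Module.finrank ℚ F = 3 ^ n) (hun : ∀ p, p.Prime → p ∣ 6 * r → Unram p F) :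
    SBSD.period (W (-(r : ℤ) ^ 2) F) = SBSD.realPeriod (W (-(r : ℤ) ^ 2) ℝ) ^ 3 ^ n := by
  have hodd : Odd (Module.finrank ℚ F) := by rw [hF]; exact Odd.pow (by decide)
  have h1 : ∏ᶠ v : HeightOneSpectrum (𝓞 F), SBSD.neron (W (-(r : ℤ) ^ 2) F) v = 1 := by
    simp only [neron_one hr F n hF hun, finprod_one]
  rw [SBSD.period, h1, mul_one]
  have h2 : ∀ v : InfinitePlace F, SBSD.archPeriod (W (-(r : ℤ) ^ 2) F) v =
      SBSD.realPeriod (W (-(r : ℤ) ^ 2) ℝ) := by
    intro v
    unfold SBSD.archPeriod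
    rw [dif_pos (isReal_of_odd F hodd v), W_map]
  rw [Finset.prod_congr rfl fun v _ => h2 v, Finset.prod_const]
  congr 1
  have h3 := card_places_of_odd F hodd
  rw [hF, Nat.card_eq_fintype_card] at h3
  exact h3

end SB3
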