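import Pool.Agent.MP_ae0bd0_nt.B3.P4
import Pool.Agent.MP_9ab903_nt.Tam

set_option autoImplicit false

open NumberField IsDedekindDomain CM27 BS3
open scoped Classical

namespace SB3

/-! ## [SB3-T1] the change of variables to a minimal equation has `v(u) = 0` (file T1.lean) -/

theorem t1_map {R S : Type} [CommRing R] [CommRing S] (φ : R →+* S) (k : ℤ) :
    (W k R).map φ = W k S := by
  ext <;> simp [W]

/-- The bounds for the valuation of `u`. -/
theorem t1_log (A : Type) [CommRing A] [IsDomain A] [IsDiscreteValuationRing A]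
    (K : Type) [Field K] [Algebra A K] [IsFractionRing A K] (E0 : WeierstrassCurve K)
    (hE : WeierstrassCurve.IsIntegral A E0) (n : ℕ)
    (hn : (IsDiscreteValuationRing.maximalIdeal A).valuation K E0.Δ = WithZero.exp (-(n : ℤ)))
    (T : WeierstrassCurve.VariableChange K) (hT : WeierstrassCurve.IsMinimal A (T • E0)) :
    0 ≤ WithZero.log ((IsDiscreteValuationRing.maximalIdeal A).valuation K ((T.u⁻¹ : Kˣ) : K)) ∧
    12 * WithZero.log ((IsDiscreteValuationRing.maximalIdeal A).valuation K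
      ((T.u⁻¹ : Kˣ) : K)) ≤ n := by
  have h1 := hT.val_Δ_maximal
  have hinv : T⁻¹ • (T • E0) = E0 := inv_smul_smul T E0
  have h2 := h1.2 (j := T⁻¹)
    (by show WeierstrassCurve.IsIntegral A (T⁻¹ • (T • E0)); rw [hinv]; exact hE)
  have hle : ((WeierstrassCurve.valuation_Δ_aux A ((1 : WeierstrassCurve.VariableChange K) •
      (T • E0)) : { v : WithZero (Multiplicative ℤ) // v ≤ 1 }) : WithZero (Multiplicative ℤ)) =
      (IsDiscreteValuationRing.maximalIdeal A).valuation K (T • E0).Δ := by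
    rw [one_smul]
    exact WeierstrassCurve.valuation_Δ_aux_eq_of_isIntegral A _
  have hinvv : ((WeierstrassCurve.valuation_Δ_aux A (T⁻¹ • (T • E0)) :
      { v : WithZero (Multiplicative ℤ) // v ≤ 1 }) : WithZero (Multiplicative ℤ)) =
      WithZero.exp (-(n : ℤ)) := by
    rw [hinv, WeierstrassCurve.valuation_Δ_aux_eq_of_isIntegral A _, hn]
  have hle1 : (IsDiscreteValuationRing.maximalIdeal A).valuation K (T • E0).Δ ≤ 1 := by
    rw [← hle]
    exact (WeierstrassCurve.valuation_Δ_aux A ((1 : WeierstrassCurve.VariableChange K) •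
      (T • E0))).2
  have hge : WithZero.exp (-(n : ℤ)) ≤
      (IsDiscreteValuationRing.maximalIdeal A).valuation K (T • E0).Δ := by
    by_contra hlt
    push Not at hlt
    have h4 : (WeierstrassCurve.valuation_Δ_aux A ((1 : WeierstrassCurve.VariableChange K) •
        (T • E0))) ≤ (WeierstrassCurve.valuation_Δ_aux A (T⁻¹ • (T • E0))) := by
      rw [← Subtype.coe_le_coe, hinvv, hle]
      exact hlt.le
    have h5 := h2 h4
    rw [← Subtype.coe_le_coe, hle] at h5
    have h6 := h5
    rw [show ((WeierstrassCurve.valuation_Δ_aux A (T⁻¹ • (T • E0)) :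
      { v : WithZero (Multiplicative ℤ) // v ≤ 1 }) : WithZero (Multiplicative ℤ)) =
      WithZero.exp (-(n : ℤ)) from hinvv] at h6
    exact absurd h6 (not_le.2 hlt)
  have hu : (IsDiscreteValuationRing.maximalIdeal A).valuation K ((T.u⁻¹ : Kˣ) : K) ≠ 0 := by
    rw [Valuation.ne_zero_iff]
    exact Units.ne_zero _
  have hval : (IsDiscreteValuationRing.maximalIdeal A).valuation K (T • E0).Δ =
      (IsDiscreteValuationRing.maximalIdeal A).valuation K ((T.u⁻¹ : Kˣ) : K) ^ 12 *
        WithZero.exp (-(n : ℤ)) := by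
    rw [WeierstrassCurve.variableChange_Δ, map_mul, hn, map_pow]
  have hne : WithZero.exp (-(n : ℤ)) ≠ (0 : WithZero (Multiplicative ℤ)) := by simp
  rw [hval] at hle1 hge
  have h7 := (WithZero.log_le_log (mul_ne_zero (pow_ne_zero _ hu) hne) one_ne_zero).2 hle1
  have h8 := (WithZero.log_le_log hne (mul_ne_zero (pow_ne_zero _ hu) hne)).2 hge
  rw [WithZero.log_mul (pow_ne_zero _ hu) hne, WithZero.log_pow, WithZero.log_exp] at h7 h8
  rw [WithZero.log_one] at h7
  simp only [nsmul_eq_mul, Nat.cast_ofNat] at h7 h8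
  exact ⟨by omega, by omega⟩

theorem t1_unit_of_log (A : Type) [CommRing A] [IsDomain A] [IsDiscreteValuationRing A]
    (K : Type) [Field K] [Algebra A K] [IsFractionRing A K]
    (T : WeierstrassCurve.VariableChange K)
    (h9 : WithZero.log ((IsDiscreteValuationRing.maximalIdeal A).valuation K
      ((T.u⁻¹ : Kˣ) : K)) = 0) :
    (IsDiscreteValuationRing.maximalIdeal A).valuation K (T.u : K) = 1 := by
  have hu : (IsDiscreteValuationRing.maximalIdeal A).valuation K ((T.u⁻¹ : Kˣ) : K) ≠ 0 := by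
    rw [Valuation.ne_zero_iff]
    exact Units.ne_zero _
  have h10 : (IsDiscreteValuationRing.maximalIdeal A).valuation K ((T.u⁻¹ : Kˣ) : K) = 1 := by
    rw [← WithZero.exp_log hu, h9, WithZero.exp_zero]
  rw [Units.val_inv_eq_inv_val, map_inv₀] at h10
  exact inv_eq_one.1 h10

theorem t1_val_unit (A : Type) [CommRing A] [IsDomain A] [IsDiscreteValuationRing A]
    (K : Type) [Field K] [Algebra A K] [IsFractionRing A K] (a : A) (ha : IsUnit a) :
    (IsDiscreteValuationRing.maximalIdeal A).valuation K (algebraMap A K a) = 1 := by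
  rw [HeightOneSpectrum.valuation_of_algebraMap]
  rw [HeightOneSpectrum.intValuation_eq_one_iff]
  intro hmem
  exact (IsLocalRing.mem_maximalIdeal a).1 hmem ha

theorem t1_val_irr (A : Type) [CommRing A] [IsDomain A] [IsDiscreteValuationRing A]
    (K : Type) [Field K] [Algebra A K] [IsFractionRing A K] (ϖ : A) (hϖ : Irreducible ϖ) :
    (IsDiscreteValuationRing.maximalIdeal A).valuation K (algebraMap A K ϖ)
      = WithZero.exp (-1 : ℤ) := by
  have hm : (IsDiscreteValuationRing.maximalIdeal A).asIdeal = Ideal.span {ϖ} :=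
    (IsDiscreteValuationRing.irreducible_iff_uniformizer ϖ).1 hϖ
  have h4 := HeightOneSpectrum.valuation_of_algebraMap
    (K := K) (IsDiscreteValuationRing.maximalIdeal A) ϖ
  rw [HeightOneSpectrum.intValuation_singleton _ hϖ.ne_zero hm] at h4
  exact h4

theorem t1_Δ (K : Type) [Field K] (k : ℤ) : (W k K).Δ = -432 * (k : K) ^ 2 := by
  simp only [W, WeierstrassCurve.Δ, WeierstrassCurve.b₂, WeierstrassCurve.b₄,
    WeierstrassCurve.b₆, WeierstrassCurve.b₈]
  ring

theorem t1_val_Δ (A : Type) [CommRing A] [IsDomain A] [IsDiscreteValuationRing A]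
    (K : Type) [Field K] [Algebra A K] [IsFractionRing A K] (k : ℤ) (ϖ : A)
    (hϖ : Irreducible ϖ) (n : ℕ) (e : A) (he : IsUnit e)
    (hΔ : (-432 * (k : A) ^ 2) = ϖ ^ n * e) :
    (IsDiscreteValuationRing.maximalIdeal A).valuation K (W k K).Δ =
      WithZero.exp (-(n : ℤ)) := by
  have h1 : (W k K).Δ = algebraMap A K (ϖ ^ n * e) := by
    rw [← hΔ, t1_Δ, map_mul, map_neg, map_pow, map_intCast, map_ofNat]
  rw [h1, map_mul, map_mul, t1_val_unit A K e he, mul_one, map_pow, map_pow,
    t1_val_irr A K ϖ hϖ, ← WithZero.exp_nsmul]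
  congr 1
  simp

/-- If the discriminant `-432 k²` has valuation less than `12`. -/
theorem u_unit_of_lt (A : Type) [CommRing A] [IsDomain A] [IsDiscreteValuationRing A]
    (K : Type) [Field K] [Algebra A K] [IsFractionRing A K] (k : ℤ) (ϖ : A)
    (hϖ : Irreducible ϖ) (n : ℕ) (hn : n < 12) (e : A) (he : IsUnit e)
    (hΔ : (-432 * (k : A) ^ 2) = ϖ ^ n * e)
    (T : WeierstrassCurve.VariableChange K) (hT : WeierstrassCurve.IsMinimal A (T • W k K)) :
    (IsDiscreteValuationRing.maximalIdeal A).valuation K (T.u : K) = 1 := by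
  obtain ⟨h1, h2⟩ := t1_log A K (W k K) ⟨⟨W k A, (t1_map (algebraMap A K) k).symm⟩⟩ n
    (t1_val_Δ A K k ϖ hϖ n e he hΔ) T hT
  exact t1_unit_of_log A K T (by omega)

/-- The curve `y² = x³ - 16 b²`, `b` odd, if `2` is a uniformizer. -/
theorem u_unit_two (A : Type) [CommRing A] [IsDomain A] [IsDiscreteValuationRing A]
    (K : Type) [Field K] [Algebra A K] [IsFractionRing A K] [CharZero K] (b : ℤ) (hb : Odd b)
    (h2 : Irreducible (2 : A))
    (T : WeierstrassCurve.VariableChange K)
    (hT : WeierstrassCurve.IsMinimal A (T • W (-16 * b ^ 2) K)) :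
    (IsDiscreteValuationRing.maximalIdeal A).valuation K (T.u : K) = 1 := by
  -- odd integers are units of `A`
  have hodd : ∀ n : ℤ, Odd n → IsUnit (n : A) := by
    intro n hn
    by_contra hcon
    have h5 : (n : A) ∈ IsLocalRing.maximalIdeal A := (IsLocalRing.mem_maximalIdeal _).2 hcon
    have h6 : (2 : A) ∈ IsLocalRing.maximalIdeal A :=
      (IsLocalRing.mem_maximalIdeal _).2 h2.not_isUnit
    obtain ⟨k, hk⟩ := hn
    have h7 : (1 : A) ∈ IsLocalRing.maximalIdeal A := by
      have h8 : (1 : A) = (n : A) - (k : A) * 2 := by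
        rw [hk]; push_cast; ring
      rw [h8]
      exact Ideal.sub_mem _ h5 (Ideal.mul_mem_left _ _ h6)
    exact (Ideal.ne_top_iff_one _).1 (IsLocalRing.maximalIdeal.isMaximal A).ne_top h7
  have hunit : IsUnit (-(((27 : ℤ) : A) * (b : A) ^ 4)) :=
    ((hodd 27 (by decide)).mul ((hodd b hb).pow 4)).neg
  obtain ⟨h1, h3⟩ := t1_log A K (W (-16 * b ^ 2) K)
    ⟨⟨W (-16 * b ^ 2) A, (t1_map (algebraMap A K) (-16 * b ^ 2)).symm⟩⟩ 12
    (t1_val_Δ A K (-16 * b ^ 2) 2 h2 12 _ hunit (by push_cast; ring)) T hT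
  by_cases h0 : WithZero.log ((IsDiscreteValuationRing.maximalIdeal A).valuation K
      ((T.u⁻¹ : Kˣ) : K)) = 0
  · exact t1_unit_of_log A K T h0
  exfalso
  have hinj : Function.Injective (algebraMap A K) := IsFractionRing.injective A K
  have h7 : WithZero.log ((IsDiscreteValuationRing.maximalIdeal A).valuation K
      ((T.u⁻¹ : Kˣ) : K)) = 1 := by
    simp only [Nat.cast_ofNat] at h3
    omega
  have hv2 : (IsDiscreteValuationRing.maximalIdeal A).valuation K (2 : K)
      = WithZero.exp (-1 : ℤ) := by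
    have h4 := t1_val_irr A K 2 h2
    rwa [map_ofNat] at h4
  have hu : (IsDiscreteValuationRing.maximalIdeal A).valuation K ((T.u⁻¹ : Kˣ) : K) ≠ 0 := by
    rw [Valuation.ne_zero_iff]
    exact Units.ne_zero _
  have h8 : (IsDiscreteValuationRing.maximalIdeal A).valuation K
      ((T.u⁻¹ : Kˣ) : K) = WithZero.exp (1 : ℤ) := by
    rw [← h7, WithZero.exp_log hu]
  have h9 : (IsDiscreteValuationRing.maximalIdeal A).valuation K
      ((T.u : K) / 2) ≤ 1 := by
    have h10 : (T.u : K) / 2 = (((T.u⁻¹ : Kˣ) : K) * 2)⁻¹ := by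
      rw [Units.val_inv_eq_inv_val, mul_inv, inv_inv, div_eq_mul_inv]
    rw [h10, map_inv₀, map_mul, h8, hv2, ← WithZero.exp_add]
    simp
  obtain ⟨e, he⟩ := IsDiscreteValuationRing.exists_lift_of_le_one h9
  have hue : (T.u : K) = 2 * algebraMap A K e := by
    rw [he]; field_simp
  have hint : (T • W (-16 * b ^ 2) K).IsIntegral A := by
    have h11 := hT.val_Δ_maximal.1
    have h12 : WeierstrassCurve.IsIntegral A ((1 : WeierstrassCurve.VariableChange K) •
      (T • W (-16 * b ^ 2) K)) := h11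
    rwa [one_smul] at h12
  obtain ⟨Wi, hWi⟩ := hint.integral
  have hu0 : (T.u : K) ≠ 0 := Units.ne_zero _
  have q1 : (T.u : K) * algebraMap A K Wi.a₁ = 2 * T.s := by
    have := congrArg WeierstrassCurve.a₁ hWi
    simp only [WeierstrassCurve.variableChange_a₁, W] at this
    change _ = algebraMap A K Wi.a₁ at this
    rw [← this, Units.val_inv_eq_inv_val]
    field_simp
    ring
  have q2 : (T.u : K) ^ 2 * algebraMap A K Wi.a₂ = 3 * T.r - T.s ^ 2 := by
    have := congrArg WeierstrassCurve.a₂ hWi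
    simp only [WeierstrassCurve.variableChange_a₂, W] at this
    change _ = algebraMap A K Wi.a₂ at this
    rw [← this, Units.val_inv_eq_inv_val]
    field_simp
    ring
  have q3 : (T.u : K) ^ 3 * algebraMap A K Wi.a₃ = 2 * T.t := by
    have := congrArg WeierstrassCurve.a₃ hWi
    simp only [WeierstrassCurve.variableChange_a₃, W] at this
    change _ = algebraMap A K Wi.a₃ at this
    rw [← this, Units.val_inv_eq_inv_val]
    field_simp
    ring
  have q4 : (T.u : K) ^ 4 * algebraMap A K Wi.a₄ = 3 * T.r ^ 2 - 2 * T.s * T.t := by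
    have := congrArg WeierstrassCurve.a₄ hWi
    simp only [WeierstrassCurve.variableChange_a₄, W] at this
    change _ = algebraMap A K Wi.a₄ at this
    rw [← this, Units.val_inv_eq_inv_val]
    field_simp
    ring
  have q6 : (T.u : K) ^ 6 * algebraMap A K Wi.a₆ = -16 * (b : K) ^ 2 + T.r ^ 3 - T.t ^ 2 := by
    have := congrArg WeierstrassCurve.a₆ hWi
    simp only [WeierstrassCurve.variableChange_a₆, W] at this
    change _ = algebraMap A K Wi.a₆ at this
    rw [← this, Units.val_inv_eq_inv_val]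
    push_cast
    field_simp
    ring
  obtain ⟨i3, hi3⟩ := (hodd 3 (by decide)).exists_right_inv
  have hi3' : (3 : A) * i3 = 1 := by
    have h11 : ((3 : ℤ) : A) = 3 := by norm_num
    rw [← h11]; exact hi3
  have hi3K : (3 : K) * algebraMap A K i3 = 1 := by
    have h12 := congrArg (algebraMap A K) hi3'
    rwa [map_mul, map_ofNat, map_one] at h12
  have h2K : (2 : K) ≠ 0 := two_ne_zero
  have hs : T.s = algebraMap A K (e * Wi.a₁) := by
    rw [map_mul]
    apply mul_left_cancel₀ h2K
    rw [← q1, hue]; ring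
  have ht : T.t = algebraMap A K (4 * e ^ 3 * Wi.a₃) := by
    rw [map_mul, map_mul, map_pow, map_ofNat]
    apply mul_left_cancel₀ h2K
    rw [← q3, hue]; ring
  have hr : T.r = algebraMap A K (i3 * (4 * e ^ 2 * Wi.a₂ + (e * Wi.a₁) ^ 2)) := by
    rw [map_mul, map_add, map_pow, ← hs, map_mul, map_mul, map_pow, map_ofNat]
    rw [hue] at q2
    linear_combination (-(algebraMap A K i3)) * q2 + (-T.r) * hi3K
  refine localPoly_two_aux A h2.prime i3 hi3' b hb e Wi.a₁ Wi.a₃ Wi.a₄ Wi.a₆
    (i3 * (4 * e ^ 2 * Wi.a₂ + (e * Wi.a₁) ^ 2)) ?_ ?_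
  · apply hinj
    have h13 : (algebraMap A K) (16 * e ^ 4 * Wi.a₄) = 16 * algebraMap A K e ^ 4 *
        algebraMap A K Wi.a₄ := by
      rw [map_mul, map_mul, map_pow, map_ofNat]
    have h14 : (algebraMap A K) (3 * (i3 * (4 * e ^ 2 * Wi.a₂ + (e * Wi.a₁) ^ 2)) ^ 2 -
        8 * e ^ 4 * Wi.a₁ * Wi.a₃) = 3 * T.r ^ 2 -
        8 * algebraMap A K e ^ 4 * algebraMap A K Wi.a₁ * algebraMap A K Wi.a₃ := by
      rw [map_sub, map_mul, map_pow, ← hr, map_mul, map_mul, map_mul, map_pow, map_ofNat,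
        map_ofNat]
    rw [h13, h14]
    rw [hue, hs, ht, map_mul, map_mul, map_mul, map_pow, map_ofNat] at q4
    linear_combination q4
  · apply hinj
    have h13 : (algebraMap A K) (64 * e ^ 6 * Wi.a₆) = 64 * algebraMap A K e ^ 6 *
        algebraMap A K Wi.a₆ := by
      rw [map_mul, map_mul, map_pow, map_ofNat]
    have h14 : (algebraMap A K) (-16 * (b : A) ^ 2 +
        (i3 * (4 * e ^ 2 * Wi.a₂ + (e * Wi.a₁) ^ 2)) ^ 3 -
        16 * e ^ 6 * Wi.a₃ ^ 2) = -16 * (b : K) ^ 2 + T.r ^ 3 -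
        16 * algebraMap A K e ^ 6 * algebraMap A K Wi.a₃ ^ 2 := by
      rw [map_sub, map_add, map_mul, map_neg, map_pow, map_intCast, map_pow, ← hr, map_mul,
        map_mul, map_pow, map_pow, map_ofNat]
    rw [h13, h14]
    rw [hue, ht, map_mul, map_mul, map_pow, map_ofNat] at q6
    linear_combination q6

end SB3
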